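import Pool.Agent.LibTwHL.M1
import Pool.Agent.LibTwHL.H1a

namespace TwC

open TwHL

private theorem c4_pow (c : ℕ) (hc : c ≠ 0) :
    (6 / 5 : ℝ) ^ c.primeFactors.card ≤ ∑ m ∈ c.divisors, FF (fun _ => 1 / 5) m := by
  classical
  have h1 : (6 / 5 : ℝ) ^ c.primeFactors.card = ∑ S ∈ c.primeFactors.powerset, ∏ _p ∈ S, (1 / 5 : ℝ) := by
    rw [← Finset.prod_one_add, Finset.prod_const]
    norm_num
  have hpr : ∀ S ∈ c.primeFactors.powerset, ∀ p ∈ S, p.Prime := by
    intro S hS p hp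
    exact Nat.prime_of_mem_primeFactors (Finset.mem_powerset.1 hS hp)
  have hinj : Set.InjOn (fun S : Finset ℕ => ∏ p ∈ S, p) (c.primeFactors.powerset : Set (Finset ℕ)) := by
    intro S hS S' hS' he
    have he' : ∏ p ∈ S, p = ∏ p ∈ S', p := he
    rw [← Nat.primeFactors_prod (hpr S (Finset.mem_coe.1 hS)),
      ← Nat.primeFactors_prod (hpr S' (Finset.mem_coe.1 hS')), he']
  have h2 : ∑ S ∈ c.primeFactors.powerset, ∏ _p ∈ S, (1 / 5 : ℝ)
      = ∑ m ∈ c.primeFactors.powerset.image (fun S : Finset ℕ => ∏ p ∈ S, p), FF (fun _ => 1 / 5) m := by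
    rw [Finset.sum_image hinj]
    refine Finset.sum_congr rfl fun S hS => ?_
    have hsq : Squarefree (∏ p ∈ S, p) := by
      refine Finset.squarefree_prod_of_pairwise_isCoprime (fun a ha b hb hab => ?_)
        fun a ha => (hpr S hS a ha).squarefree
      have hcop : Nat.Coprime a b :=
        (Nat.coprime_primes (hpr S hS a (Finset.mem_coe.1 ha)) (hpr S hS b (Finset.mem_coe.1 hb))).2 hab
      exact Nat.coprime_iff_isRelPrime.1 hcop
    unfold FF
    rw [if_pos hsq, Nat.primeFactors_prod (hpr S hS)]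
  rw [h1, h2]
  refine Finset.sum_le_sum_of_subset_of_nonneg ?_ fun m _ _ => ?_
  · intro m hm
    obtain ⟨S, hS, rfl⟩ := Finset.mem_image.1 hm
    rw [Nat.mem_divisors]
    refine ⟨?_, hc⟩
    exact (Finset.prod_dvd_prod_of_subset _ _ _ (Finset.mem_powerset.1 hS)).trans
      (Nat.prod_primeFactors_dvd c)
  · unfold FF
    split_ifs
    · exact Finset.prod_nonneg fun _ _ => by norm_num
    · exact le_rfl

private theorem c4_FF_nonneg (m : ℕ) : 0 ≤ FF (fun _ => 1 / 5) m := by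
  unfold FF
  split_ifs
  · exact Finset.prod_nonneg fun _ _ => by norm_num
  · exact le_rfl

private theorem c4_sum (N : ℕ) :
    ∑ c ∈ Finset.Icc 1 N, (6 / 5 : ℝ) ^ c.primeFactors.card
      ≤ N * ∑ m ∈ Finset.Icc 1 N, FF (fun _ => 1 / 5) m / m := by
  classical
  have h1 : ∑ c ∈ Finset.Icc 1 N, (6 / 5 : ℝ) ^ c.primeFactors.card
      ≤ ∑ c ∈ Finset.Icc 1 N, ∑ m ∈ Finset.Icc 1 N, if m ∣ c then FF (fun _ => 1 / 5) m else 0 := by
    refine Finset.sum_le_sum fun c hc => ?_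
    rw [Finset.mem_Icc] at hc
    refine (c4_pow c (by omega)).trans ?_
    rw [← Finset.sum_filter]
    refine Finset.sum_le_sum_of_subset_of_nonneg ?_ fun m _ _ => c4_FF_nonneg m
    intro m hm
    rw [Nat.mem_divisors] at hm
    rw [Finset.mem_filter, Finset.mem_Icc]
    have h2 := Nat.pos_of_dvd_of_pos hm.1 (by omega)
    have h3 := Nat.le_of_dvd (by omega) hm.1
    exact ⟨⟨h2, h3.trans hc.2⟩, hm.1⟩
  refine h1.trans ?_
  rw [Finset.sum_comm, Finset.mul_sum]
  refine Finset.sum_le_sum fun m hm => ?_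
  rw [Finset.mem_Icc] at hm
  rw [← Finset.sum_filter, Finset.sum_const, nsmul_eq_mul]
  have h2 : ((Finset.Icc 1 N).filter (fun c => m ∣ c)).card = N / m := by
    have h3 : (Finset.Icc 1 N).filter (fun c => m ∣ c) = (Finset.Ioc 0 N).filter (fun c => m ∣ c) := by
      ext c
      simp only [Finset.mem_filter, Finset.mem_Icc, Finset.mem_Ioc]
      constructor
      · rintro ⟨⟨h4, h5⟩, h6⟩
        exact ⟨⟨by omega, h5⟩, h6⟩
      · rintro ⟨⟨h4, h5⟩, h6⟩
        exact ⟨⟨by omega, h5⟩, h6⟩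
    rw [h3]
    exact Nat.Ioc_filter_dvd_card_eq_div N m
  rw [h2]
  have h4 : ((N / m : ℕ) : ℝ) ≤ (N : ℝ) / m := Nat.cast_div_le
  have h5 := mul_le_mul_of_nonneg_right h4 (c4_FF_nonneg m)
  refine h5.trans (le_of_eq ?_)
  ring

/-- Row C4. Rankin: `(6/5)^ω(c) = ∑_{m | c squarefree} (1/5)^ω(m)`, so
`∑_{c ≤ N} (6/5)^ω(c) ≤ N ∑_{m ≤ N} FF (1/5) m / m ≤ N exp((1/5) ∑ 1/p) ≤ C N exp(LL N / 5)`
(`sum_FF_div`, `mertens`); `6/5 * log(6/5) > 0.2187 > 1/5 + 1/60`. -/
theorem typical_c : ∃ C : ℝ, 0 < C ∧ ∀ N : ℕ, 1 ≤ N →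
    (((Finset.Icc 1 N).filter (fun c => 6 / 5 * LL N < (c.primeFactors.card : ℝ))).card : ℝ)
      ≤ C * N * Real.exp (- (1 / 60) * LL N) := by
  obtain ⟨C0, hC0, hM⟩ := mertens
  refine ⟨Real.exp (1 / 5 * C0), Real.exp_pos _, fun N hN => ?_⟩
  have hN1 : (1 : ℝ) ≤ N := by exact_mod_cast hN
  have hL : 0 ≤ LL N := Real.log_nonneg (by linarith [Real.log_nonneg hN1])
  have hlog : (2 / 11 : ℝ) ≤ Real.log (6 / 5) := by
    have h := Real.le_log_one_add_of_nonneg (x := 1 / 5) (by norm_num)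
    norm_num at h
    exact h
  have hlog0 : Real.exp (Real.log (6 / 5)) = 6 / 5 := Real.exp_log (by norm_num)
  have hF : ∑ m ∈ Finset.Icc 1 N, FF (fun _ => 1 / 5) m / m ≤ Real.exp (1 / 5 * (LL N + C0)) := by
    refine (sum_FF_div (fun _ => 1 / 5) (fun _ => by norm_num) N).trans ?_
    apply Real.exp_le_exp.2
    have h1 : ∑ p ∈ PP N, (1 / 5 : ℝ) / p = 1 / 5 * ∑ p ∈ PP N, 1 / (p : ℝ) := by
      rw [Finset.mul_sum]
      refine Finset.sum_congr rfl fun p _ => ?_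
      ring
    rw [h1]
    have h2 := (abs_le.1 (hM N hN)).2
    linarith
  have hS := (c4_sum N).trans (mul_le_mul_of_nonneg_left hF (by linarith))
  have h1 : (((Finset.Icc 1 N).filter (fun c => 6 / 5 * LL N < (c.primeFactors.card : ℝ))).card : ℝ)
      ≤ Real.exp (- (Real.log (6 / 5) * (6 / 5 * LL N))) *
        ∑ c ∈ Finset.Icc 1 N, (6 / 5 : ℝ) ^ c.primeFactors.card := by
    rw [Finset.card_eq_sum_ones, Nat.cast_sum, Finset.mul_sum]
    refine (Finset.sum_le_sum fun c hc => ?_).trans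
      (Finset.sum_le_sum_of_subset_of_nonneg (Finset.filter_subset _ _) fun c _ _ => by positivity)
    have hc' := (Finset.mem_filter.1 hc).2
    have h2 : (6 / 5 : ℝ) ^ c.primeFactors.card
        = Real.exp (c.primeFactors.card * Real.log (6 / 5)) := by
      rw [Real.exp_nat_mul, hlog0]
    rw [h2, ← Real.exp_add]
    have h3 : (0 : ℝ) ≤ -(Real.log (6 / 5) * (6 / 5 * LL N)) + c.primeFactors.card * Real.log (6 / 5) := by
      have h4 : 0 ≤ Real.log (6 / 5) * ((c.primeFactors.card : ℝ) - 6 / 5 * LL N) :=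
        mul_nonneg (by linarith) (by linarith)
      linarith
    have h5 := Real.one_le_exp h3
    simpa using h5
  refine h1.trans ((mul_le_mul_of_nonneg_left hS (Real.exp_pos _).le).trans ?_)
  have h6 : Real.exp (- (Real.log (6 / 5) * (6 / 5 * LL N))) * (N * Real.exp (1 / 5 * (LL N + C0)))
      = Real.exp (1 / 5 * C0) * N * Real.exp (- (Real.log (6 / 5) * (6 / 5 * LL N)) + 1 / 5 * LL N) := by
    rw [show (1 / 5 : ℝ) * (LL N + C0) = 1 / 5 * LL N + 1 / 5 * C0 by ring, Real.exp_add, Real.exp_add]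
    ring
  rw [h6]
  refine mul_le_mul_of_nonneg_left ?_ (by positivity)
  apply Real.exp_le_exp.2
  have h7 : 2 / 11 * (6 / 5 * LL N) ≤ Real.log (6 / 5) * (6 / 5 * LL N) :=
    mul_le_mul_of_nonneg_right hlog (by linarith)
  linarith

end TwC
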