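import Mathlib

namespace TwC

/-- Row C1. If `x < 0` then `x^2 + a x + c^2 ≤ 0`, so `|x| ≤ |a|`; `x = 0` is excluded by size. `x > 0`:
`x = d u^2` with `d` squarefree (`Nat.sq_mul_squarefree`); `d q` is a square (`q = x^2 + a x + c^2`,
`y = u y'`), so `q = d w^2` (`d` squarefree), `d | c^2`, `d | c`; `w ≠ 0` (otherwise `q = 0` and
`x^2 ≤ |a| x`). `4 d w^2 = (2x + a)^2 - (a^2 - 4c^2)`. If `d = 1`:
`(2x + a - 2w)(2x + a + 2w) = a^2 - 4c^2 ≠ 0` gives `|2x + a| ≤ (|a^2 - 4c^2| + 1)/2`, contradiction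
to the size. For `p ∣ Δ`, `p^2 ∤ Δ`, `p ∤ 2d`: `(2x + a)^2 ≡ 4 d w^2 mod p`; `p ∤ w` (else `p | 2x + a` and
`p^2 | Δ`); so `J(d|p) = 1`. -/
theorem class_cond (a c x y : ℤ) (hc : c ≠ 0) (hΔ : a ^ 2 - 4 * c ^ 2 ≠ 0)
    (h : y ^ 2 = x * (x ^ 2 + a * x + c ^ 2)) (hx : a ^ 2 + 4 * c ^ 2 + |a| < |x|) :
    ∃ d : ℕ, 1 < d ∧ Squarefree d ∧ (d : ℤ) ∣ c ∧ ∀ p : ℕ, p.Prime → p ≠ 2 → ¬ p ∣ d →
      (p : ℤ) ∣ a ^ 2 - 4 * c ^ 2 → ¬ (p : ℤ) ^ 2 ∣ a ^ 2 - 4 * c ^ 2 → jacobiSym (d : ℤ) p = 1 := by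
  have hc2 : 0 < c ^ 2 := by positivity
  have ha2 : 0 ≤ a ^ 2 := sq_nonneg a
  have haa : 0 ≤ |a| := abs_nonneg a
  have hax : |a| < |x| := by linarith
  have hxpos : 0 < x := by
    rcases lt_trichotomy x 0 with hx0 | hx0 | hx0
    · exfalso
      have h1 : |x| = -x := abs_of_neg hx0
      rw [h1] at hax hx
      have h2 : a ≤ |a| := le_abs_self a
      have h3 : 0 < x ^ 2 + a * x + c ^ 2 := by nlinarith
      have h4 : x * (x ^ 2 + a * x + c ^ 2) < 0 := mul_neg_of_neg_of_pos hx0 h3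
      have h5 : 0 ≤ y ^ 2 := sq_nonneg y
      linarith
    · exfalso
      rw [hx0, abs_zero] at hax
      linarith
    · exact hx0
  rw [abs_of_pos hxpos] at hax hx
  have hxa : 0 < x + a := by
    have := neg_abs_le a
    linarith
  have hq : 0 < x ^ 2 + a * x + c ^ 2 := by nlinarith
  obtain ⟨d, u, hud, hdsq⟩ := Nat.sq_mul_squarefree x.toNat
  have hx' : x = (u : ℤ) ^ 2 * d := by
    have h1 : ((x.toNat : ℕ) : ℤ) = x := Int.toNat_of_nonneg hxpos.le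
    rw [← h1, ← hud]
    push_cast
    ring
  have hd0 : (d : ℤ) ≠ 0 := by
    rintro h0
    rw [h0, mul_zero] at hx'
    omega
  have hu0 : (u : ℤ) ≠ 0 := by
    rintro h0
    rw [h0] at hx'
    norm_num at hx'
    omega
  have hdsq' : Squarefree (d : ℤ) := by
    rw [Int.squarefree_natCast]
    exact hdsq
  have huy : (u : ℤ) ∣ y := by
    have h1 : (u : ℤ) ^ 2 ∣ y ^ 2 := ⟨d * (x ^ 2 + a * x + c ^ 2), by rw [h]; nth_rewrite 1 [hx']; ring⟩
    exact (Int.pow_dvd_pow_iff two_ne_zero).1 h1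
  obtain ⟨y', hy'⟩ := huy
  have h1 : y' ^ 2 = d * (x ^ 2 + a * x + c ^ 2) := by
    have h2 : (u : ℤ) ^ 2 * y' ^ 2 = (u : ℤ) ^ 2 * (d * (x ^ 2 + a * x + c ^ 2)) := by
      rw [← mul_pow, ← hy', h]
      nth_rewrite 1 [hx']
      ring
    exact mul_left_cancel₀ (pow_ne_zero 2 hu0) h2
  have h2 : (d : ℤ) ∣ y' := by
    rw [← hdsq'.dvd_pow_iff_dvd two_ne_zero]
    exact ⟨_, h1⟩
  obtain ⟨w, hw⟩ := h2
  have hqw : x ^ 2 + a * x + c ^ 2 = d * w ^ 2 := by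
    have h3 : (d : ℤ) * (x ^ 2 + a * x + c ^ 2) = d * (d * w ^ 2) := by
      rw [← h1, hw]
      ring
    exact mul_left_cancel₀ hd0 h3
  have hdc : (d : ℤ) ∣ c := by
    rw [← hdsq'.dvd_pow_iff_dvd two_ne_zero]
    have h3 : c ^ 2 = d * (w ^ 2 - (u : ℤ) ^ 2 * (x + a)) := by
      have h4 : x * (x + a) = (u : ℤ) ^ 2 * d * (x + a) := by rw [← hx']
      linear_combination hqw - h4
    exact ⟨_, h3⟩
  have hkey : (2 * x + a) ^ 2 - 4 * d * w ^ 2 = a ^ 2 - 4 * c ^ 2 := by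
    linear_combination 4 * hqw
  refine ⟨d, ?_, hdsq, hdc, ?_⟩
  · by_contra hd1
    have hd1' : (d : ℤ) = 1 := by omega
    rw [hd1', mul_one] at hkey
    have hf : (2 * x + a - 2 * w) * (2 * x + a + 2 * w) = a ^ 2 - 4 * c ^ 2 := by
      rw [← hkey]
      ring
    have hf1 : 2 * x + a - 2 * w ≠ 0 := by
      intro h0
      rw [h0, zero_mul] at hf
      exact hΔ hf.symm
    have hf2 : 2 * x + a + 2 * w ≠ 0 := by
      intro h0
      rw [h0, mul_zero] at hf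
      exact hΔ hf.symm
    have hle1 : |2 * x + a - 2 * w| ≤ |a ^ 2 - 4 * c ^ 2| := by
      rw [← hf, abs_mul]
      have : 1 ≤ |2 * x + a + 2 * w| := Int.one_le_abs hf2
      nlinarith [abs_nonneg (2 * x + a - 2 * w)]
    have hle2 : |2 * x + a + 2 * w| ≤ |a ^ 2 - 4 * c ^ 2| := by
      rw [← hf, abs_mul]
      have : 1 ≤ |2 * x + a - 2 * w| := Int.one_le_abs hf1
      nlinarith [abs_nonneg (2 * x + a + 2 * w)]
    have hle3 : |a ^ 2 - 4 * c ^ 2| ≤ a ^ 2 + 4 * c ^ 2 := by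
      rw [abs_le]
      constructor <;> linarith
    have h5 := le_abs_self (2 * x + a - 2 * w)
    have h6 := le_abs_self (2 * x + a + 2 * w)
    have h7 := neg_abs_le a
    linarith
  · intro p hp hp2 hpd hpΔ hpΔ2
    have : Fact p.Prime := ⟨hp⟩
    have hpw : ¬ (p : ℤ) ∣ w := by
      intro hpw
      have h3 : (p : ℤ) ∣ (2 * x + a) ^ 2 := by
        have h4 : (2 * x + a) ^ 2 = (a ^ 2 - 4 * c ^ 2) + w * (4 * d * w) := by
          rw [← hkey]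
          ring
        rw [h4]
        exact dvd_add hpΔ (Dvd.dvd.mul_right hpw _)
      have h4 : (p : ℤ) ∣ 2 * x + a := Int.Prime.dvd_pow' hp h3
      apply hpΔ2
      rw [← hkey]
      refine dvd_sub (pow_dvd_pow_of_dvd h4 2) ?_
      exact Dvd.dvd.mul_left (pow_dvd_pow_of_dvd hpw 2) _
    have hw0 : (w : ZMod p) ≠ 0 := by
      rw [Ne, ZMod.intCast_zmod_eq_zero_iff_dvd]
      exact hpw
    have h20 : (2 : ZMod p) ≠ 0 := by
      intro h0
      have : ((2 : ℕ) : ZMod p) = 0 := by exact_mod_cast h0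
      rw [ZMod.natCast_eq_zero_iff] at this
      exact hp2 ((Nat.prime_dvd_prime_iff_eq hp Nat.prime_two).1 this)
    have hd00 : ((d : ℤ) : ZMod p) ≠ 0 := by
      rw [Int.cast_natCast, Ne, ZMod.natCast_eq_zero_iff]
      exact hpd
    rw [← jacobiSym.legendreSym.to_jacobiSym, legendreSym.eq_one_iff p hd00]
    have h3 : ((2 * x + a : ℤ) : ZMod p) ^ 2 = 4 * (d : ZMod p) * (w : ZMod p) ^ 2 := by
      have h4 : (((2 * x + a) ^ 2 - 4 * d * w ^ 2 : ℤ) : ZMod p) = 0 := by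
        rw [hkey, ZMod.intCast_zmod_eq_zero_iff_dvd]
        exact hpΔ
      push_cast at h4 ⊢
      exact sub_eq_zero.1 h4
    refine ⟨((2 * x + a : ℤ) : ZMod p) / (2 * w), ?_⟩
    rw [← sq, div_pow, h3]
    field_simp
    push_cast
    ring

end TwC
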