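import Mathlib

namespace TwC

open Finset

private theorem C2_class (T : Finset ℤ) (H m : ℕ) (hm : 0 < m) (hT : ∀ e ∈ T, |e| ≤ (H : ℤ))
    (hc : ∀ e ∈ T, ∀ e' ∈ T, (m : ℤ) ∣ e - e') : T.card ≤ 2 * H / m + 1 := by
  rcases T.eq_empty_or_nonempty with rfl | hne
  · simp
  · set e0 := T.min' hne with he0
    have he0T : e0 ∈ T := T.min'_mem hne
    have hm' : (0 : ℤ) < m := by exact_mod_cast hm
    have h : T.card ≤ (Finset.range (2 * H / m + 1)).card := by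
      refine Finset.card_le_card_of_injOn (fun e => ((e - e0) / m).toNat) ?_ ?_
      · intro e he
        have he' : e ∈ T := he
        have h1 : e0 ≤ e := T.min'_le e he'
        have h2 := abs_le.1 (hT e he')
        have h3 := abs_le.1 (hT e0 he0T)
        simp only [Finset.coe_range, Set.mem_Iio]
        have h4 : (e - e0) / m ≤ (2 * H) / m := Int.ediv_le_ediv hm' (by linarith)
        have h5 : 0 ≤ (e - e0) / m := Int.ediv_nonneg (by linarith) hm'.le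
        have h6 : (((2 * H / m : ℕ)) : ℤ) = (2 * H) / m := by push_cast; rfl
        omega
      · intro e he e' he' hee
        have h1 : e0 ≤ e := T.min'_le e he
        have h1' : e0 ≤ e' := T.min'_le e' he'
        have h5 : 0 ≤ (e - e0) / m := Int.ediv_nonneg (by linarith) hm'.le
        have h5' : 0 ≤ (e' - e0) / m := Int.ediv_nonneg (by linarith) hm'.le
        have h6 : (e - e0) / m = (e' - e0) / m := by
          simp only at hee
          omega
        have h7 := Int.ediv_mul_cancel (hc e he e0 he0T)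
        have h8 := Int.ediv_mul_cancel (hc e' he' e0 he0T)
        rw [h6, h8] at h7
        linarith
    rwa [Finset.card_range] at h

private theorem C2_A (S : Finset (ℤ × ℤ)) (H p : ℕ) (k : ℤ) (hp : p.Prime) (hp5 : 4 < p) (hk : |k| ≤ 2)
    (hS : ∀ z ∈ S, |z.1| ≤ (H : ℤ) ∧ |z.2| ≤ (H : ℤ) ∧ 3 * z.1 + k * z.2 ≠ 0 ∧
      (p : ℤ) ^ 2 ∣ 3 * z.1 + k * z.2) : (S.card : ℝ) ≤ 21 * (H : ℝ) ^ 2 / (p : ℝ) ^ 2 := by
  have hp0 : (0 : ℝ) < p := by exact_mod_cast hp.pos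
  rcases S.eq_empty_or_nonempty with rfl | ⟨z, hz⟩
  · simp only [Finset.card_empty, Nat.cast_zero]
    positivity
  · obtain ⟨h1, h2, h3, h4⟩ := hS z hz
    have hle : (p : ℤ) ^ 2 ≤ 5 * H := by
      have h5 : (p : ℤ) ^ 2 ≤ |3 * z.1 + k * z.2| :=
        Int.le_of_dvd (abs_pos.2 h3) ((dvd_abs _ _).2 h4)
      have h6 : |3 * z.1 + k * z.2| ≤ |3 * z.1| + |k * z.2| := abs_add_le _ _
      rw [abs_mul, abs_mul] at h6
      have h7 : |(3 : ℤ)| = 3 := by norm_num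
      have h8 : |k| * |z.2| ≤ 2 * H := mul_le_mul hk h2 (abs_nonneg _) (by norm_num)
      rw [h7] at h6
      linarith
    have hleR : (p : ℝ) ^ 2 ≤ 5 * H := by exact_mod_cast hle
    have hp2 : (0 : ℝ) < (p : ℝ) ^ 2 := by positivity
    have hH1 : (1 : ℝ) ≤ H := by
      have : (5 : ℝ) ≤ p := by exact_mod_cast hp5
      nlinarith
    have hcop : IsCoprime ((p : ℤ) ^ 2) 3 := by
      apply IsCoprime.pow_left
      rw [Int.isCoprime_iff_gcd_eq_one]
      have : Nat.Coprime p 3 := (Nat.coprime_primes hp Nat.prime_three).2 (by omega)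
      exact_mod_cast this
    have hfib : ∀ c ∈ S.image Prod.snd, (S.filter (fun x => x.2 = c)).card ≤ 2 * H / p ^ 2 + 1 := by
      intro c _
      have hinj : Set.InjOn Prod.fst ((S.filter (fun x => x.2 = c) : Finset (ℤ × ℤ)) : Set (ℤ × ℤ)) := by
        intro a ha b hb hab
        rw [Finset.mem_coe, Finset.mem_filter] at ha hb
        exact Prod.ext hab (ha.2.trans hb.2.symm)
      rw [← Finset.card_image_of_injOn hinj]
      refine C2_class _ H (p ^ 2) (pow_pos hp.pos 2) ?_ ?_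
      · intro e he
        rw [Finset.mem_image] at he
        obtain ⟨x, hx, rfl⟩ := he
        exact (hS x (Finset.mem_filter.1 hx).1).1
      · intro e he e' he'
        rw [Finset.mem_image] at he he'
        obtain ⟨x, hx, rfl⟩ := he
        obtain ⟨x', hx', rfl⟩ := he'
        rw [Finset.mem_filter] at hx hx'
        have h5 := (hS x hx.1).2.2.2
        have h6 := (hS x' hx'.1).2.2.2
        have h7 : (p : ℤ) ^ 2 ∣ 3 * (x.1 - x'.1) := by
          have h8 : 3 * (x.1 - x'.1) = (3 * x.1 + k * x.2) - (3 * x'.1 + k * x'.2) := by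
            rw [hx.2, hx'.2]
            ring
          rw [h8]
          exact dvd_sub h5 h6
        push_cast
        exact hcop.dvd_of_dvd_mul_left h7
    have hcard := Finset.card_le_mul_card_image S _ hfib
    have himg : (S.image Prod.snd).card ≤ 2 * H + 1 := by
      have h5 : S.image Prod.snd ⊆ Finset.Icc (-(H : ℤ)) H := by
        intro c hc
        rw [Finset.mem_image] at hc
        obtain ⟨x, hx, rfl⟩ := hc
        exact Finset.mem_Icc.2 (abs_le.1 (hS x hx).2.1)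
      have h6 := Finset.card_le_card h5
      rw [Int.card_Icc] at h6
      omega
    have hN : S.card ≤ (2 * H / p ^ 2 + 1) * (2 * H + 1) :=
      hcard.trans (Nat.mul_le_mul_left _ himg)
    have hR : (S.card : ℝ) ≤ (((2 * H / p ^ 2 : ℕ) : ℝ) + 1) * (2 * H + 1) := by exact_mod_cast hN
    have hdiv : ((2 * H / p ^ 2 : ℕ) : ℝ) ≤ 2 * H / (p : ℝ) ^ 2 := by
      have := @Nat.cast_div_le ℝ _ _ _ (2 * H) (p ^ 2)
      push_cast at this
      exact this
    have h1le : (1 : ℝ) ≤ 5 * H / (p : ℝ) ^ 2 := by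
      rw [le_div_iff₀ hp2]
      linarith
    have h5 : ((2 * H / p ^ 2 : ℕ) : ℝ) + 1 ≤ 7 * H / (p : ℝ) ^ 2 := by
      have : 7 * (H : ℝ) / (p : ℝ) ^ 2 = 2 * H / (p : ℝ) ^ 2 + 5 * H / (p : ℝ) ^ 2 := by ring
      rw [this]
      linarith
    calc (S.card : ℝ) ≤ _ := hR
      _ ≤ (7 * H / (p : ℝ) ^ 2) * (3 * H) := by
        refine mul_le_mul h5 (by linarith) (by positivity) (by positivity)
      _ = 21 * (H : ℝ) ^ 2 / (p : ℝ) ^ 2 := by ring

private theorem C2_B (S : Finset (ℤ × ℤ)) (H p : ℕ) (hp : 0 < p)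
    (hS : ∀ z ∈ S, |z.1| ≤ (H : ℤ) ∧ |z.2| ≤ (H : ℤ) ∧ z.2 ≠ 0 ∧ (p : ℤ) ∣ z.1 ∧ (p : ℤ) ∣ z.2) :
    (S.card : ℝ) ≤ 9 * (H : ℝ) ^ 2 / (p : ℝ) ^ 2 := by
  have hp0 : (0 : ℝ) < p := by exact_mod_cast hp
  rcases S.eq_empty_or_nonempty with rfl | ⟨z, hz⟩
  · simp only [Finset.card_empty, Nat.cast_zero]
    positivity
  · obtain ⟨h1, h2, h3, h4, h5⟩ := hS z hz
    have hpH : (p : ℤ) ≤ H := (Int.le_of_dvd (abs_pos.2 h3) ((dvd_abs _ _).2 h5)).trans h2
    have hpHR : (p : ℝ) ≤ H := by exact_mod_cast hpH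
    have hT1 : (S.image Prod.fst).card ≤ 2 * H / p + 1 := by
      refine C2_class _ H p hp ?_ ?_
      · intro e he
        rw [Finset.mem_image] at he
        obtain ⟨x, hx, rfl⟩ := he
        exact (hS x hx).1
      · intro e he e' he'
        rw [Finset.mem_image] at he he'
        obtain ⟨x, hx, rfl⟩ := he
        obtain ⟨x', hx', rfl⟩ := he'
        exact dvd_sub (hS x hx).2.2.2.1 (hS x' hx').2.2.2.1
    have hT2 : (S.image Prod.snd).card ≤ 2 * H / p + 1 := by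
      refine C2_class _ H p hp ?_ ?_
      · intro e he
        rw [Finset.mem_image] at he
        obtain ⟨x, hx, rfl⟩ := he
        exact (hS x hx).2.1
      · intro e he e' he'
        rw [Finset.mem_image] at he he'
        obtain ⟨x, hx, rfl⟩ := he
        obtain ⟨x', hx', rfl⟩ := he'
        exact dvd_sub (hS x hx).2.2.2.2 (hS x' hx').2.2.2.2
    have hsub : S ⊆ (S.image Prod.fst) ×ˢ (S.image Prod.snd) := by
      intro x hx
      rw [Finset.mem_product]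
      exact ⟨Finset.mem_image_of_mem _ hx, Finset.mem_image_of_mem _ hx⟩
    have hcard := Finset.card_le_card hsub
    rw [Finset.card_product] at hcard
    have hN : S.card ≤ (2 * H / p + 1) * (2 * H / p + 1) := hcard.trans (Nat.mul_le_mul hT1 hT2)
    have hR : (S.card : ℝ) ≤ (((2 * H / p : ℕ) : ℝ) + 1) * (((2 * H / p : ℕ) : ℝ) + 1) := by exact_mod_cast hN
    have hdiv : ((2 * H / p : ℕ) : ℝ) ≤ 2 * H / (p : ℝ) := by
      have := @Nat.cast_div_le ℝ _ _ _ (2 * H) p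
      push_cast at this
      exact this
    have h1le : (1 : ℝ) ≤ H / (p : ℝ) := by
      rw [le_div_iff₀ hp0]
      linarith
    have h6 : ((2 * H / p : ℕ) : ℝ) + 1 ≤ 3 * H / (p : ℝ) := by
      have : 3 * (H : ℝ) / (p : ℝ) = 2 * H / (p : ℝ) + H / (p : ℝ) := by ring
      rw [this]
      linarith
    calc (S.card : ℝ) ≤ _ := hR
      _ ≤ (3 * H / (p : ℝ)) * (3 * H / (p : ℝ)) := by
        refine mul_le_mul h6 h6 (by positivity) (by positivity)
      _ = 9 * (H : ℝ) ^ 2 / (p : ℝ) ^ 2 := by ring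

/-- Row C2. For a prime `p > w ≥ 4` and fixed `c` the `e` with `p^2 | 3e - 2c ≠ 0` lie in one class
mod `p^2` (at most `(2H+1)/p^2 + 1`), and `p^2 ≤ 5H`; same for `3e + 2c`. If `p | e`, `p | c ≠ 0`: at most
`2H/p` values of `c`, `2H/p + 1` of `e`, `p ≤ H`. Sum over integers `p > w` (`∑_{n > w} 1/n^2 ≤ 1/w`; at most
`√(5H)` values of `p`; `∑_{n ≤ H} 1/n ≤ 1 + log H ≤ 3 √H`). -/
theorem few_pairs : ∃ C : ℝ, 0 < C ∧ ∀ H w : ℕ, 4 ≤ w → w ≤ H → ∀ S : Finset (ℤ × ℤ),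
    (∀ z ∈ S, |z.1| ≤ H ∧ |z.2| ≤ H ∧ z.2 ≠ 0 ∧ 9 * z.1 ^ 2 ≠ 4 * z.2 ^ 2 ∧
      ∃ p : ℕ, p.Prime ∧ w < p ∧ ((p : ℤ) ^ 2 ∣ 3 * z.1 - 2 * z.2 ∨ (p : ℤ) ^ 2 ∣ 3 * z.1 + 2 * z.2 ∨
        ((p : ℤ) ∣ z.1 ∧ (p : ℤ) ∣ z.2))) →
    (S.card : ℝ) ≤ C * ((H : ℝ) ^ 2 / w + H * √(H : ℝ)) := by
  classical
  refine ⟨51, by norm_num, fun H w hw hwH S hS => ?_⟩
  have hw0 : (0 : ℝ) < w := by
    have : 0 < w := by omega
    exact_mod_cast this
  set Sp : ℕ → Finset (ℤ × ℤ) := fun p => if p.Prime then S.filter (fun z => (p : ℤ) ^ 2 ∣ 3 * z.1 - 2 * z.2 ∨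
    (p : ℤ) ^ 2 ∣ 3 * z.1 + 2 * z.2 ∨ ((p : ℤ) ∣ z.1 ∧ (p : ℤ) ∣ z.2)) else ∅ with hSp
  have hne : ∀ z ∈ S, 3 * z.1 + (-2) * z.2 ≠ 0 ∧ 3 * z.1 + 2 * z.2 ≠ 0 := by
    intro z hz
    obtain ⟨-, -, -, h4, -⟩ := hS z hz
    constructor
    · intro h0
      apply h4
      linear_combination (3 * z.1 + 2 * z.2) * h0
    · intro h0
      apply h4
      linear_combination (3 * z.1 - 2 * z.2) * h0
  have hcover : S ⊆ (Finset.Ioc w (5 * H)).biUnion Sp := by
    intro z hz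
    obtain ⟨h1, h2, h3, h4, p, hp, hwp, hdiv⟩ := hS z hz
    obtain ⟨hne1, hne2⟩ := hne z hz
    rw [Finset.mem_biUnion]
    refine ⟨p, ?_, ?_⟩
    · rw [Finset.mem_Ioc]
      refine ⟨hwp, ?_⟩
      have hp1 : (1 : ℤ) ≤ p := by exact_mod_cast hp.one_lt.le
      have ha1 := abs_le.1 h1
      have ha2 := abs_le.1 h2
      have hbig : ∀ t : ℤ, t ≠ 0 → |t| ≤ 5 * H → (p : ℤ) ^ 2 ∣ t → p ≤ 5 * H := by
        intro t ht0 ht hd
        have h5 : (p : ℤ) ^ 2 ≤ |t| := Int.le_of_dvd (abs_pos.2 ht0) ((dvd_abs _ _).2 hd)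
        have h6 : (p : ℤ) ≤ (p : ℤ) ^ 2 := by nlinarith
        have h7 : (p : ℤ) ≤ 5 * H := by linarith
        exact_mod_cast h7
      rcases hdiv with hd | hd | ⟨_, hd⟩
      · refine hbig (3 * z.1 - 2 * z.2) ?_ ?_ hd
        · intro h0
          apply hne1
          linarith
        · rw [abs_le]
          constructor <;> linarith [ha1.1, ha1.2, ha2.1, ha2.2]
      · refine hbig (3 * z.1 + 2 * z.2) hne2 ?_ hd
        rw [abs_le]
        constructor <;> linarith [ha1.1, ha1.2, ha2.1, ha2.2]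
      · have h5 : (p : ℤ) ≤ |z.2| := Int.le_of_dvd (abs_pos.2 h3) ((dvd_abs _ _).2 hd)
        have h7 : (p : ℤ) ≤ 5 * H := by linarith
        exact_mod_cast h7
    · simp only [hSp, if_pos hp, Finset.mem_filter]
      exact ⟨hz, hdiv⟩
  have hSpcard : ∀ p ∈ Finset.Ioc w (5 * H), ((Sp p).card : ℝ) ≤ 51 * (H : ℝ) ^ 2 * ((p : ℝ) ^ 2)⁻¹ := by
    intro p hpm
    rw [Finset.mem_Ioc] at hpm
    by_cases hp : p.Prime
    · set A := S.filter (fun z => (p : ℤ) ^ 2 ∣ 3 * z.1 + (-2) * z.2) with hA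
      set A' := S.filter (fun z => (p : ℤ) ^ 2 ∣ 3 * z.1 + 2 * z.2) with hA'
      set B := S.filter (fun z => (p : ℤ) ∣ z.1 ∧ (p : ℤ) ∣ z.2) with hB
      have hsub : Sp p ⊆ A ∪ (A' ∪ B) := by
        intro z hz
        simp only [hSp, if_pos hp, Finset.mem_filter] at hz
        simp only [hA, hA', hB, Finset.mem_union, Finset.mem_filter]
        rcases hz.2 with hd | hd | hd
        · left
          refine ⟨hz.1, ?_⟩
          have : 3 * z.1 + (-2) * z.2 = 3 * z.1 - 2 * z.2 := by ring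
          rw [this]
          exact hd
        · right; left
          exact ⟨hz.1, hd⟩
        · right; right
          exact ⟨hz.1, hd⟩
      have hcA : (A.card : ℝ) ≤ 21 * (H : ℝ) ^ 2 / (p : ℝ) ^ 2 := by
        refine C2_A A H p (-2) hp (by omega) (by norm_num) fun z hz => ?_
        rw [hA, Finset.mem_filter] at hz
        obtain ⟨h1, h2, -⟩ := hS z hz.1
        exact ⟨h1, h2, (hne z hz.1).1, hz.2⟩
      have hcA' : (A'.card : ℝ) ≤ 21 * (H : ℝ) ^ 2 / (p : ℝ) ^ 2 := by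
        refine C2_A A' H p 2 hp (by omega) (by norm_num) fun z hz => ?_
        rw [hA', Finset.mem_filter] at hz
        obtain ⟨h1, h2, -⟩ := hS z hz.1
        exact ⟨h1, h2, (hne z hz.1).2, hz.2⟩
      have hcB : (B.card : ℝ) ≤ 9 * (H : ℝ) ^ 2 / (p : ℝ) ^ 2 := by
        refine C2_B B H p hp.pos fun z hz => ?_
        rw [hB, Finset.mem_filter] at hz
        obtain ⟨h1, h2, h3, -⟩ := hS z hz.1
        exact ⟨h1, h2, h3, hz.2.1, hz.2.2⟩
      have h5 : (Sp p).card ≤ A.card + (A'.card + B.card) :=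
        (Finset.card_le_card hsub).trans ((Finset.card_union_le _ _).trans
          (Nat.add_le_add_left (Finset.card_union_le _ _) _))
      have h6 : ((Sp p).card : ℝ) ≤ A.card + (A'.card + B.card) := by exact_mod_cast h5
      have h7 : 51 * (H : ℝ) ^ 2 * ((p : ℝ) ^ 2)⁻¹ = 21 * (H : ℝ) ^ 2 / (p : ℝ) ^ 2 +
          (21 * (H : ℝ) ^ 2 / (p : ℝ) ^ 2 + 9 * (H : ℝ) ^ 2 / (p : ℝ) ^ 2) := by
        rw [← div_eq_mul_inv]
        ring
      rw [h7]
      linarith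
    · have h5 : Sp p = ∅ := by simp only [hSp, if_neg hp]
      rw [h5, Finset.card_empty, Nat.cast_zero]
      positivity
  have hsum : (S.card : ℝ) ≤ ∑ p ∈ Finset.Ioc w (5 * H), ((Sp p).card : ℝ) := by
    have h5 := (Finset.card_le_card hcover).trans Finset.card_biUnion_le
    exact_mod_cast h5
  have hinv : ∑ p ∈ Finset.Ioc w (5 * H), ((p : ℝ) ^ 2)⁻¹ ≤ (w : ℝ)⁻¹ := by
    have h5 := sum_Ioc_inv_sq_le_sub (α := ℝ) (k := w) (n := 5 * H) (by omega) (by omega)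
    have h6 : (0 : ℝ) ≤ ((5 * H : ℕ) : ℝ)⁻¹ := by positivity
    linarith
  have hsq : 0 ≤ (H : ℝ) * √(H : ℝ) := by positivity
  calc (S.card : ℝ) ≤ ∑ p ∈ Finset.Ioc w (5 * H), ((Sp p).card : ℝ) := hsum
    _ ≤ ∑ p ∈ Finset.Ioc w (5 * H), 51 * (H : ℝ) ^ 2 * ((p : ℝ) ^ 2)⁻¹ := Finset.sum_le_sum hSpcard
    _ = 51 * (H : ℝ) ^ 2 * ∑ p ∈ Finset.Ioc w (5 * H), ((p : ℝ) ^ 2)⁻¹ := by rw [Finset.mul_sum]
    _ ≤ 51 * (H : ℝ) ^ 2 * (w : ℝ)⁻¹ := mul_le_mul_of_nonneg_left hinv (by positivity)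
    _ = 51 * ((H : ℝ) ^ 2 / w) := by rw [div_eq_mul_inv]; ring
    _ ≤ 51 * ((H : ℝ) ^ 2 / w + H * √(H : ℝ)) := by linarith

end TwC
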