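import Pool.Agent.LibRD69.SU

namespace TwC

theorem c3_res {p : ℕ} (hp : p.Prime) (h3 : 3 < p) (t : ℤ) :
    ∃ h : ℕ, h < p ∧ ∀ e : ℤ, (p : ℤ) ∣ 3 * e - t ↔ e ≡ (h : ℤ) [ZMOD p] := by
  have hp0 : (0 : ℤ) < p := by exact_mod_cast hp.pos
  have hcop : IsCoprime (3 : ℤ) (p : ℤ) := by
    rw [Int.isCoprime_iff_gcd_eq_one]
    have : Nat.Coprime 3 p := (Nat.coprime_primes Nat.prime_three hp).2 (by omega)
    simpa [Int.gcd] using this
  obtain ⟨u, v, huv⟩ := hcop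
  refine ⟨((u * t) % p).toNat, ?_, ?_⟩
  · have := Int.emod_lt_of_pos (u * t) hp0
    have := Int.emod_nonneg (u * t) hp0.ne'
    omega
  · intro e
    have h1 : (((u * t) % p).toNat : ℤ) = (u * t) % p :=
      Int.toNat_of_nonneg (Int.emod_nonneg _ hp0.ne')
    rw [h1]
    have h2 : e ≡ (u * t) % p [ZMOD p] ↔ e ≡ u * t [ZMOD p] := by
      constructor
      · intro h; exact h.trans (Int.mod_modEq _ _)
      · intro h; exact h.trans (Int.mod_modEq _ _).symm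
    rw [h2]
    constructor
    · rintro ⟨m, hm⟩
      rw [Int.modEq_comm, Int.modEq_iff_dvd]
      refine ⟨u * m + v * e, ?_⟩
      have : e = u * 3 * e + v * p * e := by rw [← add_mul, huv, one_mul]
      calc e - u * t = u * 3 * e + v * p * e - u * t := by rw [← this]
        _ = u * (3 * e - t) + v * p * e := by ring
        _ = p * (u * m + v * e) := by rw [hm]; ring
    · intro h
      rw [Int.modEq_comm, Int.modEq_iff_dvd] at h
      obtain ⟨m, hm⟩ := h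
      refine ⟨3 * m - v * t, ?_⟩
      have : 3 * u = 1 - v * p := by linarith
      calc 3 * e - t = 3 * (e - u * t) + (3 * u) * t - t := by ring
        _ = p * (3 * m - v * t) := by rw [hm, this]; ring

/-- Row C3. `RD69.sieve_ub` with `r = 2`, `N = 2H + 1`, `Ω p` = the residues of `2c/3` and `-2c/3`. -/
theorem sieve_e : ∃ (C : ℝ) (k : ℕ), 0 < C ∧ 1 ≤ k ∧ ∀ (H z w : ℕ) (c : ℤ) (Q : Finset ℕ), 4 ≤ w →
    2 ≤ z → z ^ k ≤ H → (∀ p ∈ Q, p.Prime ∧ w < p ∧ p ≤ z ∧ ¬ (p : ℤ) ∣ c) → ∀ S : Finset ℤ,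
    (∀ e ∈ S, |e| ≤ H ∧ ∀ p ∈ Q, ¬ (p : ℤ) ∣ 3 * e - 2 * c ∧ ¬ (p : ℤ) ∣ 3 * e + 2 * c) →
    (S.card : ℝ) ≤ C * H * Real.exp (- 2 * ∑ p ∈ Q, 1 / (p : ℝ)) := by
  classical
  obtain ⟨K, hK, hs⟩ := RD69.sieve_ub
  refine ⟨54, K * 2, by norm_num, by omega, ?_⟩
  intro H z w c Q hw hz hzk hQ S hS
  have hex : ∀ p ∈ Q, ∃ Ω : Finset ℕ, Ω.card = 2 ∧ (∀ h ∈ Ω, h < p) ∧
      ∀ e : ℤ, (∃ h ∈ Ω, e ≡ (h : ℤ) [ZMOD p]) → (p : ℤ) ∣ 3 * e - 2 * c ∨ (p : ℤ) ∣ 3 * e + 2 * c := by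
    intro p hp
    obtain ⟨h1, h2, h3, h4⟩ := hQ p hp
    obtain ⟨a, ha, hae⟩ := c3_res h1 (by omega) (2 * c)
    obtain ⟨b, hb, hbe⟩ := c3_res h1 (by omega) (-(2 * c))
    have hne : a ≠ b := by
      rintro rfl
      have k1 := (hae a).2 (Int.ModEq.refl _)
      have k2 := (hbe a).2 (Int.ModEq.refl _)
      have k3 : (p : ℤ) ∣ 4 * c := by
        have := dvd_sub k2 k1
        have e : 3 * (a : ℤ) - -(2 * c) - (3 * a - 2 * c) = 4 * c := by ring
        rwa [e] at this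
      have hpp : Prime (p : ℤ) := Nat.prime_iff_prime_int.1 h1
      rcases hpp.dvd_or_dvd k3 with h | h
      · have : (p : ℤ) ≤ 4 := Int.le_of_dvd (by norm_num) h
        omega
      · exact h4 h
    refine ⟨{a, b}, Finset.card_pair hne, ?_, ?_⟩
    · intro h hh
      rw [Finset.mem_insert, Finset.mem_singleton] at hh
      rcases hh with rfl | rfl <;> assumption
    · rintro e ⟨h, hh, he⟩
      rw [Finset.mem_insert, Finset.mem_singleton] at hh
      rcases hh with rfl | rfl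
      · left; exact (hae e).2 he
      · right
        have := (hbe e).2 he
        rwa [sub_neg_eq_add] at this
  choose! Ω hΩ using hex
  have hmain := hs 2 z (2 * H + 1) Q Ω (by omega) hz (by
    intro p hp
    obtain ⟨h1, h2, h3, h4⟩ := hQ p hp
    obtain ⟨k1, k2, -⟩ := hΩ p hp
    exact ⟨h1, by omega, h3, k1.le, k2⟩) (by omega) (-(H : ℤ)) S (by
    intro e he
    obtain ⟨h1, -⟩ := hS e he
    have := abs_le.1 h1
    rw [Finset.mem_Ico]
    push_cast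
    omega) (by
    intro p hp e he h hh hmod
    obtain ⟨-, -, k3⟩ := hΩ p hp
    obtain ⟨-, h2⟩ := hS e he
    rcases k3 e ⟨h, hh, hmod⟩ with k | k
    · exact (h2 p hp).1 k
    · exact (h2 p hp).2 k)
  have hH1 : 1 ≤ H := le_trans (Nat.one_le_pow _ _ (by omega)) hzk
  have hprod : ∏ p ∈ Q, (1 - ((Ω p).card : ℝ) / p) ≤ Real.exp (- 2 * ∑ p ∈ Q, 1 / (p : ℝ)) := by
    rw [Finset.mul_sum, Real.exp_sum]
    apply Finset.prod_le_prod
    · intro p hp
      obtain ⟨h1, h2, h3, h4⟩ := hQ p hp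
      rw [(hΩ p hp).1]
      have : (2 : ℝ) ≤ p := by exact_mod_cast h1.two_le
      have h5 : ((2 : ℕ) : ℝ) / p ≤ 1 := by
        rw [div_le_one (by linarith)]; exact_mod_cast h1.two_le
      linarith
    · intro p hp
      rw [(hΩ p hp).1]
      have := Real.add_one_le_exp (-2 * (1 / (p : ℝ)))
      push_cast
      have e : (2 : ℝ) / p = 2 * (1 / p) := by ring
      rw [e]
      linarith
  have hHr : (1 : ℝ) ≤ H := by exact_mod_cast hH1
  refine hmain.trans ?_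
  push_cast
  calc 18 * (2 * (H : ℝ) + 1) * ∏ p ∈ Q, (1 - ((Ω p).card : ℝ) / p)
      ≤ 18 * (2 * (H : ℝ) + 1) * Real.exp (- 2 * ∑ p ∈ Q, 1 / (p : ℝ)) :=
        mul_le_mul_of_nonneg_left hprod (by positivity)
    _ ≤ 54 * H * Real.exp (- 2 * ∑ p ∈ Q, 1 / (p : ℝ)) :=
        mul_le_mul_of_nonneg_right (by linarith) (Real.exp_pos _).le

end TwC
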