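import Pool.Agent.LibTwHL.K7b
import Pool.Agent.LibTwHL.U1

namespace TwC

open TwHL

private lemma c5_LL (B : ℝ) : ∃ N₀ : ℕ, ∀ N : ℕ, N₀ ≤ N → B ≤ LL N := by
  have h1 : Filter.Tendsto (fun N : ℕ => LL N) Filter.atTop Filter.atTop := by
    unfold LL
    exact Real.tendsto_log_atTop.comp (Filter.tendsto_atTop_add_const_left _ _
      (Real.tendsto_log_atTop.comp tendsto_natCast_atTop_atTop))
  exact Filter.eventually_atTop.1 (h1.eventually_ge_atTop B)

private lemma c5_notsq {d : ℕ} (hd : 1 < d) (hs : Squarefree d) : ¬ IsSquare (d : ℤ) := by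
  rintro ⟨m, hm⟩
  have h1 : d = m.natAbs * m.natAbs := by
    have h2 := congrArg Int.natAbs hm
    rw [Int.natAbs_mul] at h2
    simpa using h2
  have h3 : IsUnit m.natAbs := hs m.natAbs ⟨1, by rw [mul_one]; exact h1⟩
  rw [Nat.isUnit_iff] at h3
  rw [h3] at h1
  omega

/-- if `log (1 + log d)` is at least `t / 1000 - C`, `t = log (1 + log N)` large, then
`d > (log N) ^ 10` -/
private lemma c5_large {C t L : ℝ} (hC : 0 < C) (ht : 1000 * (C + 20000 + 10000 * C) ≤ t)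
    (hL : 0 < L) (htL : Real.log L ≤ t) {d : ℕ} (hd : 1 < d)
    (h : 1 / 1000 * t < Real.log (1 + Real.log d) + C) : L ^ 10 < (d : ℝ) := by
  have hd1 : (1 : ℝ) < d := by exact_mod_cast hd
  have hld : 0 < Real.log d := Real.log_pos hd1
  obtain ⟨s, hs⟩ : ∃ s : ℝ, s = t / 1000 - C := ⟨_, rfl⟩
  have hs1 : 20000 + 10000 * C ≤ s := by rw [hs]; linarith
  have hs0 : 0 ≤ s := by linarith
  have h1 : s < Real.log (1 + Real.log d) := by rw [hs]; linarith
  have h2 : Real.exp s < 1 + Real.log d := by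
    rw [← Real.lt_log_iff_exp_lt (by linarith)]
    exact h1
  have h3 := Real.quadratic_le_exp_of_nonneg hs0
  have h4 : 10 * t < Real.log d := by
    have h5 : t = 1000 * s + 1000 * C := by rw [hs]; ring
    nlinarith
  have h5 : Real.log (L ^ 10) < Real.log d := by
    rw [Real.log_pow]
    push_cast
    linarith
  exact (Real.log_lt_log_iff (by positivity) (by linarith)).1 h5

/-- Row C5. By `chi_upper` (`d` is not a square) `LL d + C > LL N / 1000`, so `d > (log N)^10` for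
`N ≥ N₀`; and `d` is not `Good 1 1 N`; `sum_not_good 1 1` (restrict its sum to these `d`). -/
theorem not_nice : ∃ C : ℝ, 0 < C ∧ ∃ N₀ : ℕ, ∀ N : ℕ, N₀ ≤ N → ∀ E : Finset ℕ,
    (∀ d ∈ E, 1 < d ∧ d ≤ N ∧ Squarefree d ∧
      ∃ z : ℕ, 1 ≤ z ∧ z ≤ N ∧ 1 / 1000 * LL N < ∑ p ∈ PP z, (jacobiSym (d : ℤ) p : ℝ) / p) →
    ∑ d ∈ E, 1 / (d : ℝ) ≤ C * Real.exp (- LL N) := by
  obtain ⟨C, hC, N₁, hN₁⟩ := sum_not_good 1 1
  obtain ⟨C', hC', hup⟩ := chi_upper
  obtain ⟨N₂, hN₂⟩ := c5_LL (1000 * (C' + 20000 + 10000 * C'))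
  refine ⟨C, hC, max (max N₁ N₂) 2, fun N hN E hE => ?_⟩
  have hNa : N₁ ≤ N := le_trans (le_trans (le_max_left _ _) (le_max_left _ _)) hN
  have hNb : N₂ ≤ N := le_trans (le_trans (le_max_right _ _) (le_max_left _ _)) hN
  have hN2 : 2 ≤ N := le_trans (le_max_right _ _) hN
  have hN2' : (1 : ℝ) < N := by exact_mod_cast hN2
  have hL : 0 < Real.log N := Real.log_pos hN2'
  refine hN₁ N hNa E fun d hd => ?_
  obtain ⟨h1, h2, h3, z, hz1, hz2, hz⟩ := hE d hd
  refine ⟨?_, h2, h3, fun hg => ?_⟩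
  · have h4 := hup (d : ℤ) (c5_notsq h1 h3) z hz1
    rw [Int.natAbs_natCast] at h4
    refine c5_large hC' (hN₂ N hNb) hL ?_ h1 (lt_of_lt_of_le hz h4)
    exact Real.log_le_log hL (by linarith)
  · have h4 := (hg z hz1 hz2).1
    rw [one_mul] at h4
    exact absurd (lt_of_lt_of_le hz (le_trans (le_abs_self _) h4)) (lt_irrefl _)

end TwC
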