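import Pool.Agent.LibTwHL.M1
import Pool.Agent.LibTwHL.S2a

namespace TwC

open TwHL

private theorem c6_union (A B : Finset ℕ) :
    ∑ p ∈ A ∪ B, 1 / (p : ℝ) ≤ ∑ p ∈ A, 1 / (p : ℝ) + ∑ p ∈ B, 1 / (p : ℝ) := by
  have h1 := Finset.sum_union_inter (s₁ := A) (s₂ := B) (f := fun p : ℕ => 1 / (p : ℝ))
  have h2 : 0 ≤ ∑ p ∈ A ∩ B, 1 / (p : ℝ) := Finset.sum_nonneg fun p _ => by positivity
  linarith

private theorem c6_zero {d p : ℕ} (hp : p.Prime) (h : jacobiSym (d : ℤ) p = 0) : p ∣ d := by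
  have : NeZero p := ⟨hp.ne_zero⟩
  have h1 := jacobiSym.eq_zero_iff_not_coprime.1 h
  by_contra h2
  apply h1
  rw [Int.gcd_natCast_natCast]
  exact (Nat.coprime_comm.1 ((Nat.Prime.coprime_iff_not_dvd hp).2 h2))

/-- Row C6. `1_{J=-1} = (1 - J)/2 - 1_{J=0}/2`, `J(d|p) = 0` only for `p | d`, hence `p | c`; `mertens` for
`∑_{p ≤ z}` and `∑_{p ≤ w}`; `sum_dvd` for `∑_{p | c} 1/p ≤ log (1 + LL |c|) + C ≤ log(1 + LL N) + C`
(use it for `|c|`). -/
theorem minus_sum : ∃ C : ℝ, 0 < C ∧ ∀ (N z w d : ℕ) (c : ℤ), 1 ≤ z → z ≤ N → 1 ≤ w → c ≠ 0 →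
    |c| ≤ N → (d : ℤ) ∣ c →
    ∑ p ∈ PP z, (jacobiSym (d : ℤ) p : ℝ) / p ≤ 1 / 1000 * LL N →
    1 / 2 * LL z - 1 / 2000 * LL N - LL w - 2 * Real.log (1 + LL N) - C
      ≤ ∑ p ∈ (PP z).filter (fun p => w < p ∧ ¬ (p : ℤ) ∣ c ∧ jacobiSym (d : ℤ) p = -1), 1 / (p : ℝ)
    := by
  obtain ⟨C1, hC1, hM⟩ := mertens
  obtain ⟨C2, hC2, hD⟩ := sum_dvd
  refine ⟨2 * C1 + 2 * C2, by linarith, ?_⟩
  intro N z w d c hz hzN hw hc hcN hdc hJ
  have hNN : 1 ≤ N := le_trans hz hzN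
  have hg1 : 1 ≤ c.natAbs := Nat.one_le_iff_ne_zero.2 (Int.natAbs_ne_zero.2 hc)
  have hgN : c.natAbs ≤ N := by
    have h1 : (c.natAbs : ℤ) = |c| := Int.natCast_natAbs c
    omega
  -- the primes dividing `c`
  have hlog0 : 0 ≤ Real.log (1 + LL N) := by
    apply Real.log_nonneg
    have h1 : 0 ≤ LL N := by
      unfold LL
      apply Real.log_nonneg
      have h2 : 0 ≤ Real.log (N : ℝ) := Real.log_nonneg (by exact_mod_cast hNN)
      linarith
    linarith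
  have hdvd : ∑ p ∈ c.natAbs.primeFactors, 1 / (p : ℝ) ≤ Real.log (1 + LL N) + C2 := by
    have h1 := hD c.natAbs hg1
    have h2 : (0 : ℝ) ≤ Real.log (c.natAbs : ℝ) := Real.log_nonneg (by exact_mod_cast hg1)
    have h3 : Real.log (c.natAbs : ℝ) ≤ Real.log (N : ℝ) :=
      Real.log_le_log (by exact_mod_cast hg1) (by exact_mod_cast hgN)
    have h4 : LL c.natAbs ≤ LL N := by
      unfold LL
      exact Real.log_le_log (by linarith) (by linarith)
    have h5 : 0 ≤ LL c.natAbs := by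
      unfold LL
      exact Real.log_nonneg (by linarith)
    have h6 : Real.log (1 + LL c.natAbs) ≤ Real.log (1 + LL N) :=
      Real.log_le_log (by linarith) (by linarith)
    linarith
  have hzM := (abs_le.1 (hM z hz)).1
  have hwM := (abs_le.1 (hM w hw)).2
  -- the primes with symbol `0`
  have hzero : ∑ p ∈ (PP z).filter (fun p => jacobiSym (d : ℤ) p = 0), 1 / (p : ℝ) ≤
      ∑ p ∈ c.natAbs.primeFactors, 1 / (p : ℝ) := by
    refine Finset.sum_le_sum_of_subset_of_nonneg ?_ (fun p _ _ => by positivity)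
    intro p hp
    have h1 := (Finset.mem_filter.1 hp).2
    have h2 := (Finset.mem_filter.1 (Finset.mem_filter.1 hp).1).2
    have h3 := c6_zero h2 h1
    rw [Nat.mem_primeFactors]
    refine ⟨h2, ?_, Int.natAbs_ne_zero.2 hc⟩
    exact h3.trans (Int.natCast_dvd.1 hdc)
  -- all primes with symbol `-1`
  have hminus : 2 * ∑ p ∈ (PP z).filter (fun p => jacobiSym (d : ℤ) p = -1), 1 / (p : ℝ) =
      ∑ p ∈ PP z, 1 / (p : ℝ) - ∑ p ∈ PP z, (jacobiSym (d : ℤ) p : ℝ) / p -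
        ∑ p ∈ (PP z).filter (fun p => jacobiSym (d : ℤ) p = 0), 1 / (p : ℝ) := by
    rw [Finset.sum_filter, Finset.sum_filter, Finset.mul_sum, ← Finset.sum_sub_distrib,
      ← Finset.sum_sub_distrib]
    refine Finset.sum_congr rfl fun p _ => ?_
    rcases jacobiSym.trichotomy (d : ℤ) p with h | h | h
    · rw [h]
      norm_num
    · rw [h]
      norm_num
    · rw [h]
      norm_num
      ring
  have hcover : ∑ p ∈ (PP z).filter (fun p => jacobiSym (d : ℤ) p = -1), 1 / (p : ℝ) ≤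
      ∑ p ∈ (PP z).filter (fun p => w < p ∧ ¬ (p : ℤ) ∣ c ∧ jacobiSym (d : ℤ) p = -1),
        1 / (p : ℝ) + ∑ p ∈ PP w, 1 / (p : ℝ) + ∑ p ∈ c.natAbs.primeFactors, 1 / (p : ℝ) := by
    refine le_trans ?_ ((c6_union _ _).trans (add_le_add_left (c6_union _ _) _))
    refine Finset.sum_le_sum_of_subset_of_nonneg ?_ (fun p _ _ => by positivity)
    intro p hp
    obtain ⟨h1, h2⟩ := Finset.mem_filter.1 hp
    have h3 := (Finset.mem_filter.1 h1).2
    by_cases h4 : p ≤ w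
    · refine Finset.mem_union_left _ (Finset.mem_union_right _ ?_)
      exact Finset.mem_filter.2 ⟨Finset.mem_Icc.2 ⟨h3.one_le, h4⟩, h3⟩
    by_cases h5 : (p : ℤ) ∣ c
    · refine Finset.mem_union_right _ ?_
      rw [Nat.mem_primeFactors]
      exact ⟨h3, Int.natCast_dvd.1 h5, Int.natAbs_ne_zero.2 hc⟩
    · refine Finset.mem_union_left _ (Finset.mem_union_left _ ?_)
      exact Finset.mem_filter.2 ⟨h1, by omega, h5, h2⟩
  linarith

end TwC
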