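import Pool.Agent.LibTwC.C2
import Pool.Agent.LibTwC.C3
import Pool.Agent.LibTwC.C4
import Pool.Agent.LibTwC.C5
import Pool.Agent.LibTwC.C6

namespace TwC

open TwHL

private theorem C7_two (H : ℕ) (T : Finset ℕ) (S : Finset (ℤ × ℤ))
    (hS : ∀ z ∈ S, |z.1| ≤ H ∧ z.2.natAbs ∈ T) : S.card ≤ (2 * H + 1) * (2 * T.card) := by
  have hsub : S ⊆ Finset.Icc (-(H : ℤ)) H ×ˢ
      (T.image (fun n : ℕ => (n : ℤ)) ∪ T.image (fun n : ℕ => -(n : ℤ))) := by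
    intro z hz
    obtain ⟨h1, h2⟩ := hS z hz
    rw [abs_le] at h1
    rw [Finset.mem_product, Finset.mem_Icc, Finset.mem_union, Finset.mem_image, Finset.mem_image]
    refine ⟨h1, ?_⟩
    rcases Int.natAbs_eq z.2 with h | h
    · exact Or.inl ⟨z.2.natAbs, h2, h.symm⟩
    · exact Or.inr ⟨z.2.natAbs, h2, h.symm⟩
  have h1 := Finset.card_le_card hsub
  rw [Finset.card_product, Int.card_Icc] at h1
  have h2 : ((H : ℤ) + 1 - -(H : ℤ)).toNat = 2 * H + 1 := by omega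
  rw [h2] at h1
  refine h1.trans (Nat.mul_le_mul_left _ ?_)
  refine (Finset.card_union_le _ _).trans ?_
  have h3 := Finset.card_image_le (s := T) (f := fun n : ℕ => (n : ℤ))
  have h4 := Finset.card_image_le (s := T) (f := fun n : ℕ => -(n : ℤ))
  omega

private theorem C7_LL_nonneg (H : ℕ) : 0 ≤ LL H := by
  unfold LL
  apply Real.log_nonneg
  have := Real.log_natCast_nonneg H
  linarith

private theorem C7_z (H k : ℕ) (hk : 1 ≤ k) (hH : 1 ≤ H) :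
    LL H - Real.log (k + 1) ≤ LL (2 ^ (Nat.log 2 H / k)) := by
  have h1 : H < 2 ^ ((Nat.log 2 H / k + 1) * k) := by
    refine (Nat.lt_pow_succ_log_self (by norm_num) H).trans_le
      (Nat.pow_le_pow_right (by norm_num) ?_)
    have h := Nat.lt_div_mul_add (a := Nat.log 2 H) (show 0 < k by omega)
    rw [Nat.add_mul, Nat.one_mul]
    omega
  generalize Nat.log 2 H / k = q at h1
  have hHr : (1 : ℝ) ≤ H := by exact_mod_cast hH
  have hlog0 : 0 ≤ Real.log H := Real.log_nonneg hHr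
  have h2 : Real.log H ≤ ((q : ℝ) + 1) * k * Real.log 2 := by
    have h3 : (H : ℝ) ≤ (2 : ℝ) ^ ((q + 1) * k) := by exact_mod_cast h1.le
    have h4 := Real.log_le_log (by linarith) h3
    rw [Real.log_pow] at h4
    push_cast at h4
    exact h4
  have hl2 : Real.log 2 ≤ 1 := by
    have := Real.log_two_lt_d9
    linarith
  have hl20 : 0 < Real.log 2 := Real.log_pos (by norm_num)
  have hk0 : (1 : ℝ) ≤ k := by exact_mod_cast hk
  have hq0 : (0 : ℝ) ≤ q := Nat.cast_nonneg _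
  have hql : 0 ≤ (q : ℝ) * Real.log 2 := by positivity
  unfold LL
  rw [sub_le_iff_le_add, ← Real.log_mul]
  · apply Real.log_le_log (by linarith)
    push_cast
    rw [Real.log_pow]
    have h5 : (k : ℝ) * Real.log 2 ≤ k := mul_le_of_le_one_right (by linarith) hl2
    nlinarith
  · push_cast
    rw [Real.log_pow]
    linarith
  · linarith

private theorem C7_w (H : ℕ) (hH : 1 ≤ H) :
    LL (⌈Real.log H⌉₊ + 4) ≤ 4 + Real.log (1 + LL H) := by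
  have hHr : (1 : ℝ) ≤ H := by exact_mod_cast hH
  have hlog0 : 0 ≤ Real.log H := Real.log_nonneg hHr
  have hL0 := C7_LL_nonneg H
  have hl5 : Real.log 5 ≤ 4 := by
    have := Real.log_le_sub_one_of_pos (show (0 : ℝ) < 5 by norm_num)
    linarith
  have hw : ((⌈Real.log H⌉₊ + 4 : ℕ) : ℝ) ≤ 5 * (1 + Real.log H) := by
    have h1 := Nat.ceil_lt_add_one hlog0
    push_cast
    linarith
  have hw0 : (0 : ℝ) < ((⌈Real.log H⌉₊ + 4 : ℕ) : ℝ) := by positivity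
  have hw1 : (1 : ℝ) ≤ ((⌈Real.log H⌉₊ + 4 : ℕ) : ℝ) := by
    push_cast
    have : (0 : ℝ) ≤ (⌈Real.log H⌉₊ : ℝ) := Nat.cast_nonneg _
    linarith
  have h2 : Real.log ((⌈Real.log H⌉₊ + 4 : ℕ) : ℝ) ≤ 4 + LL H := by
    have h3 := Real.log_le_log hw0 hw
    rw [Real.log_mul (by norm_num) (by linarith)] at h3
    unfold LL
    linarith
  have h4 : 0 ≤ Real.log ((⌈Real.log H⌉₊ + 4 : ℕ) : ℝ) := Real.log_nonneg hw1
  have h5 : Real.log (1 + Real.log ((⌈Real.log H⌉₊ + 4 : ℕ) : ℝ)) ≤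
      Real.log (5 * (1 + LL H)) := Real.log_le_log (by linarith) (by linarith)
  rw [Real.log_mul (by norm_num) (by linarith)] at h5
  have h6 : LL (⌈Real.log H⌉₊ + 4) = Real.log (1 + Real.log ((⌈Real.log H⌉₊ + 4 : ℕ) : ℝ)) := rfl
  rw [h6]
  linarith

private theorem C7_log (L : ℝ) (hL : 0 ≤ L) : Real.log (1 + L) ≤ 39 + L / 40 := by
  have h1 := Real.log_le_sub_one_of_pos (show (0 : ℝ) < (1 + L) / 40 by positivity)
  have h2 := Real.log_le_sub_one_of_pos (show (0 : ℝ) < 40 by norm_num)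
  rw [Real.log_div (by linarith) (by norm_num)] at h1
  linarith

private theorem C7_pow (n : ℕ) (L : ℝ) (hL : 0 ≤ L) (h : (n : ℝ) ≤ 6 / 5 * L) :
    (2 : ℝ) ^ n ≤ Real.exp (832 / 1000 * L) := by
  have h1 : (2 : ℝ) ^ n = Real.exp (n * Real.log 2) := by
    rw [← Real.log_pow, Real.exp_log (by positivity)]
  rw [h1]
  apply Real.exp_le_exp.2
  have h2 := Real.log_two_lt_d9
  have h3 : 0 < Real.log 2 := Real.log_pos (by norm_num)
  nlinarith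

private theorem C7_sqf (n : ℕ) (hn : n ≠ 0) (D : Finset ℕ) (hD : ∀ d ∈ D, Squarefree d ∧ d ∣ n) :
    D.card ≤ 2 ^ n.primeFactors.card := by
  rw [← Finset.card_powerset]
  apply Finset.card_le_card_of_injOn Nat.primeFactors
  · intro d hd
    rw [Finset.mem_coe, Finset.mem_powerset]
    exact Nat.primeFactors_mono (hD d hd).2 hn
  · intro d hd d' hd' h
    rw [← Nat.prod_primeFactors_of_squarefree (hD d hd).1,
      ← Nat.prod_primeFactors_of_squarefree (hD d' hd').1, h]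

private theorem C7_sq (p : ℕ) (hp : p.Prime) (hp4 : 4 < p) (a c : ℤ) (hpc : ¬ (p : ℤ) ∣ c)
    (h1 : (p : ℤ) ∣ a - 2 * c) (h2 : ¬ (p : ℤ) ^ 2 ∣ a - 2 * c) :
    ¬ (p : ℤ) ^ 2 ∣ (a - 2 * c) * (a + 2 * c) := by
  intro h
  have hpp : Prime (p : ℤ) := Nat.prime_iff_prime_int.1 hp
  apply h2
  have h3 : ¬ (p : ℤ) ∣ a + 2 * c := by
    intro h4
    have h5 : (p : ℤ) ∣ 4 * c := by
      have h6 := dvd_sub h4 h1
      have h7 : a + 2 * c - (a - 2 * c) = 4 * c := by ring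
      rwa [h7] at h6
    rcases hpp.dvd_or_dvd h5 with h8 | h8
    · have h9 := Int.le_of_dvd (by norm_num) h8
      omega
    · exact hpc h8
  exact IsCoprime.dvd_of_dvd_mul_right
    (IsCoprime.pow_left (hpp.coprime_iff_not_dvd.2 h3)) h

private theorem C7_notdvd (e c : ℤ) (w d p : ℕ) (hw : 4 ≤ w) (hp : p.Prime) (hwp : w < p)
    (hpc : ¬ (p : ℤ) ∣ c) (hJ : jacobiSym (d : ℤ) p = -1)
    (h1 : ¬ (p : ℤ) ^ 2 ∣ 3 * e - 2 * c) (h2 : ¬ (p : ℤ) ^ 2 ∣ 3 * e + 2 * c)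
    (hd : ∀ p : ℕ, p.Prime → p ≠ 2 → ¬ p ∣ d →
        (p : ℤ) ∣ (3 * e) ^ 2 - 4 * c ^ 2 → ¬ (p : ℤ) ^ 2 ∣ (3 * e) ^ 2 - 4 * c ^ 2 →
        jacobiSym (d : ℤ) p = 1) :
    ¬ (p : ℤ) ∣ 3 * e - 2 * c ∧ ¬ (p : ℤ) ∣ 3 * e + 2 * c := by
  have hnd : ¬ p ∣ d := by
    intro h
    have : NeZero p := ⟨hp.ne_zero⟩
    have h3 : jacobiSym (d : ℤ) p = 0 := by
      rw [jacobiSym.eq_zero_iff_not_coprime]
      intro h4
      rw [Int.gcd_natCast_natCast, Nat.gcd_eq_right h] at h4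
      exact hp.one_lt.ne' h4
    rw [h3] at hJ
    norm_num at hJ
  have hp2 : p ≠ 2 := by omega
  have e1 : (3 * e) ^ 2 - 4 * c ^ 2 = (3 * e - 2 * c) * (3 * e + 2 * c) := by ring
  have key : ∀ c' : ℤ, ¬ (p : ℤ) ∣ c' → (3 * e) ^ 2 - 4 * c ^ 2 = (3 * e - 2 * c') * (3 * e + 2 * c') →
      ¬ (p : ℤ) ^ 2 ∣ 3 * e - 2 * c' → ¬ (p : ℤ) ∣ 3 * e - 2 * c' := by
    intro c' hpc' e2 g1 g2
    have g3 := C7_sq p hp (by omega) (3 * e) c' hpc' g2 g1
    rw [← e2] at g3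
    have g4 := hd p hp hp2 hnd (by rw [e2]; exact Dvd.dvd.mul_right g2 _) g3
    rw [g4] at hJ
    norm_num at hJ
  refine ⟨key c hpc e1 h1, ?_⟩
  have h5 := key (-c) (by rwa [dvd_neg]) (by rw [e1]; ring)
    (by rw [show 3 * e - 2 * -c = 3 * e + 2 * c by ring]; exact h2)
  rwa [show 3 * e - 2 * -c = 3 * e + 2 * c by ring] at h5

private theorem C7_a1 (C₂ : ℝ) (hC₂ : 0 < C₂) (H : ℕ) (hH : 1 ≤ H) :
    C₂ * ((H : ℝ) ^ 2 / ((⌈Real.log H⌉₊ + 4 : ℕ) : ℝ) + H * √(H : ℝ)) ≤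
      4 * C₂ * (H : ℝ) ^ 2 * Real.exp (- (1 / 70) * LL H) := by
  have hHr : (1 : ℝ) ≤ H := by exact_mod_cast hH
  have hlog0 : 0 ≤ Real.log H := Real.log_nonneg hHr
  have hL0 := C7_LL_nonneg H
  have hE : Real.exp (- LL H) = (1 + Real.log H)⁻¹ := by
    unfold LL
    rw [Real.exp_neg, Real.exp_log (by linarith)]
  have hE2 : Real.exp (- LL H) ≤ Real.exp (- (1 / 70) * LL H) := by
    apply Real.exp_le_exp.2
    linarith
  have h1 : (H : ℝ) ^ 2 / ((⌈Real.log H⌉₊ + 4 : ℕ) : ℝ) ≤ (H : ℝ) ^ 2 * Real.exp (- LL H) := by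
    rw [hE, div_eq_mul_inv]
    apply mul_le_mul_of_nonneg_left _ (by positivity)
    apply inv_anti₀ (by linarith)
    have := Nat.le_ceil (Real.log H)
    push_cast
    linarith
  have hs : √(H : ℝ) * √(H : ℝ) = H := Real.mul_self_sqrt (by linarith)
  have hs0 : 0 < √(H : ℝ) := Real.sqrt_pos.2 (by linarith)
  have hlog : 1 + Real.log H ≤ 3 * √(H : ℝ) := by
    have h2 := Real.log_le_sub_one_of_pos hs0
    rw [Real.log_sqrt (by linarith)] at h2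
    linarith
  have h3 : (H : ℝ) * √(H : ℝ) ≤ 3 * (H : ℝ) ^ 2 * Real.exp (- LL H) := by
    rw [hE, ← div_eq_mul_inv, le_div_iff₀ (by linarith)]
    calc (H : ℝ) * √(H : ℝ) * (1 + Real.log H) ≤ (H : ℝ) * √(H : ℝ) * (3 * √(H : ℝ)) :=
          mul_le_mul_of_nonneg_left hlog (by positivity)
      _ = 3 * (H : ℝ) * (√(H : ℝ) * √(H : ℝ)) := by ring
      _ = 3 * (H : ℝ) ^ 2 := by rw [hs]; ring
  have hp : 0 ≤ 4 * C₂ * (H : ℝ) ^ 2 := by positivity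
  have h4 := mul_le_mul_of_nonneg_left hE2 hp
  have h5 := mul_le_mul_of_nonneg_left (add_le_add h1 h3) hC₂.le
  refine h5.trans (le_trans (le_of_eq ?_) h4)
  ring

private theorem C7_a4 (C₃ C₆ : ℝ) (hC₃ : 0 < C₃) (H k w z : ℕ) (hk : 1 ≤ k) (hH : 1 ≤ H)
    (hw : w = ⌈Real.log H⌉₊ + 4) (hz : z = 2 ^ (Nat.log 2 H / k)) (T : ℝ)
    (h : 1 / 2 * LL z - 1 / 2000 * LL H - LL w - 2 * Real.log (1 + LL H) - C₆ ≤ T) :
    C₃ * H * Real.exp (- 2 * T) ≤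
      C₃ * H * Real.exp (Real.log (k + 1) + 242 + 2 * C₆ - 849 / 1000 * LL H) := by
  apply mul_le_mul_of_nonneg_left _ (by positivity)
  apply Real.exp_le_exp.2
  have h1 := C7_z H k hk hH
  have h2 := C7_w H hH
  have h3 := C7_log (LL H) (C7_LL_nonneg H)
  rw [← hz] at h1
  rw [← hw] at h2
  linarith

/-- Row C7. `w = ⌈log H⌉ + 4`, `z = ⌊H^(1/k)⌋` (`k` from `sieve_e`; `z^k ≤ H`, `LL z ≥ LL H - C`). Parts of `S`:
(1) pairs of `few_pairs`: `≤ C H^2/log H`; (2) `|c|` with `6/5 LL H < ω(|c|)`: `2 (2H+1) C H exp(-LL H/60)`;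
(3) some admissible `d` not nice (`not_nice`): at most `∑_d (2H/d + 0) (2H+1)` pairs;
(4) the rest: for each `c` and each squarefree `d | c`, `d > 1` nice, let
`Q = {p ≤ z : w < p, p ∤ c, J(d|p) = -1}`: for `p ∈ Q`, `p | 3e - 2c` is impossible (then
`p ∤ 3e + 2c` as `p ∤ 4c`, and `p^2 ∤ 3e - 2c` by (1), so `p` divides `9e^2 - 4c^2` exactly once and
`J(d|p) = 1`), same for `3e + 2c`; `sieve_e`, `minus_sum`: at most `C H exp(-0.999 LL H) (2 + LL H)^8` values of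
`e`; there are at most `2^ω(|c|) ≤ exp((6/5) log 2 LL H) ≤ exp(0.832 LL H)` such `d`. -/
theorem count : ∃ C : ℝ, 0 < C ∧ ∃ H₀ : ℕ, ∀ H : ℕ, H₀ ≤ H → ∀ S : Finset (ℤ × ℤ),
    (∀ z ∈ S, |z.1| ≤ H ∧ |z.2| ≤ H ∧ z.2 ≠ 0 ∧ 9 * z.1 ^ 2 ≠ 4 * z.2 ^ 2 ∧
      ∃ d : ℕ, 1 < d ∧ Squarefree d ∧ (d : ℤ) ∣ z.2 ∧ ∀ p : ℕ, p.Prime → p ≠ 2 → ¬ p ∣ d →
        (p : ℤ) ∣ (3 * z.1) ^ 2 - 4 * z.2 ^ 2 → ¬ (p : ℤ) ^ 2 ∣ (3 * z.1) ^ 2 - 4 * z.2 ^ 2 →
        jacobiSym (d : ℤ) p = 1) →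
    (S.card : ℝ) ≤ C * (H : ℝ) ^ 2 * Real.exp (- (1 / 70) * LL H) := by
  classical
  obtain ⟨C₂, hC₂, hfew⟩ := few_pairs
  obtain ⟨C₃, k, hC₃, hk, hsieve⟩ := sieve_e
  obtain ⟨C₄, hC₄, htyp⟩ := typical_c
  obtain ⟨C₅, hC₅, N₀, hnice⟩ := not_nice
  obtain ⟨C₆, hC₆, hminus⟩ := minus_sum
  refine ⟨4 * C₂ + 6 * C₄ + 6 * C₅ + 3 * C₃ * Real.exp (Real.log (k + 1) + 242 + 2 * C₆),
    by positivity, max N₀ (max (2 ^ k) 10), ?_⟩
  intro H hH S hS
  have hHN : N₀ ≤ H := (le_max_left _ _).trans hH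
  have hHk : 2 ^ k ≤ H := ((le_max_left _ _).trans (le_max_right _ _)).trans hH
  have hH10 : 10 ≤ H := ((le_max_right _ _).trans (le_max_right _ _)).trans hH
  have hH1 : 1 ≤ H := by omega
  have hHr : (10 : ℝ) ≤ H := by exact_mod_cast hH10
  have hlog0 : 0 ≤ Real.log H := Real.log_nonneg (by linarith)
  have hL0 := C7_LL_nonneg H
  obtain ⟨w, hw⟩ : ∃ w : ℕ, w = ⌈Real.log H⌉₊ + 4 := ⟨_, rfl⟩
  obtain ⟨z, hz⟩ : ∃ z : ℕ, z = 2 ^ (Nat.log 2 H / k) := ⟨_, rfl⟩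
  have hw4 : 4 ≤ w := by omega
  have hwH : w ≤ H := by
    have h1 := Nat.ceil_lt_add_one hlog0
    have h2 : Real.log H ≤ H / 2 := by
      have h3 := Real.log_le_sub_one_of_pos (show (0 : ℝ) < H / 2 by linarith)
      rw [Real.log_div (by linarith) (by norm_num)] at h3
      have h4 := Real.log_two_lt_d9
      linarith
    have h5 : (w : ℝ) ≤ H := by
      rw [hw]
      push_cast
      linarith
    exact_mod_cast h5
  have hq1 : 1 ≤ Nat.log 2 H / k := by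
    rw [Nat.le_div_iff_mul_le (by omega), Nat.one_mul]
    exact Nat.le_log_of_pow_le (by norm_num) hHk
  have hz2 : 2 ≤ z := by
    rw [hz]
    exact (le_self_pow₀ (by norm_num : 1 ≤ 2) (by omega : Nat.log 2 H / k ≠ 0))
  have hzk : z ^ k ≤ H := by
    rw [hz, ← pow_mul]
    exact (Nat.pow_le_pow_right (by norm_num) (Nat.div_mul_le_self _ _)).trans
      (Nat.pow_log_le_self 2 (by omega))
  have hzH : z ≤ H := (le_self_pow₀ (by omega : 1 ≤ z) (by omega : k ≠ 0)).trans hzk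
  obtain ⟨E, hE⟩ : ∃ E : Finset ℕ, E = (Finset.Icc 2 H).filter (fun d : ℕ => Squarefree d ∧
      ∃ z : ℕ, 1 ≤ z ∧ z ≤ H ∧ 1 / 1000 * LL H < ∑ p ∈ PP z, (jacobiSym (d : ℤ) p : ℝ) / p) :=
    ⟨_, rfl⟩
  have hEsum := hnice H hHN E (fun d hd => by
    rw [hE, Finset.mem_filter, Finset.mem_Icc] at hd
    exact ⟨by omega, hd.1.2, hd.2.1, hd.2.2⟩)
  have h3H : (2 * (H : ℝ) + 1) ≤ 3 * H := by linarith
  -- part 1
  obtain ⟨S₁, hS₁⟩ : ∃ S₁ : Finset (ℤ × ℤ), S₁ = S.filter (fun z => ∃ p : ℕ, p.Prime ∧ w < p ∧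
      ((p : ℤ) ^ 2 ∣ 3 * z.1 - 2 * z.2 ∨ (p : ℤ) ^ 2 ∣ 3 * z.1 + 2 * z.2 ∨
        ((p : ℤ) ∣ z.1 ∧ (p : ℤ) ∣ z.2))) := ⟨_, rfl⟩
  have hb1 : (S₁.card : ℝ) ≤ 4 * C₂ * (H : ℝ) ^ 2 * Real.exp (- (1 / 70) * LL H) := by
    refine (hfew H w hw4 hwH S₁ (fun z hz => ?_)).trans ?_
    · rw [hS₁, Finset.mem_filter] at hz
      obtain ⟨g1, g2, g3, g4, -⟩ := hS z hz.1
      exact ⟨g1, g2, g3, g4, hz.2⟩
    · rw [hw]
      exact C7_a1 C₂ hC₂ H hH1
  -- part 2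
  obtain ⟨S₂, hS₂⟩ : ∃ S₂ : Finset (ℤ × ℤ), S₂ = S.filter
      (fun z => 6 / 5 * LL H < (z.2.natAbs.primeFactors.card : ℝ)) := ⟨_, rfl⟩
  have hnat : ∀ z ∈ S, 1 ≤ z.2.natAbs ∧ z.2.natAbs ≤ H := by
    intro z hz
    obtain ⟨g1, g2, g3, -⟩ := hS z hz
    have g4 : (z.2.natAbs : ℤ) ≤ H := by rw [Int.natCast_natAbs]; exact g2
    exact ⟨Int.natAbs_pos.2 g3, by exact_mod_cast g4⟩
  have hb2 : (S₂.card : ℝ) ≤ 6 * C₄ * (H : ℝ) ^ 2 * Real.exp (- (1 / 70) * LL H) := by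
    have h1 := C7_two H ((Finset.Icc 1 H).filter
      (fun c => 6 / 5 * LL H < (c.primeFactors.card : ℝ))) S₂ (fun z hz => by
        rw [hS₂, Finset.mem_filter] at hz
        refine ⟨(hS z hz.1).1, ?_⟩
        rw [Finset.mem_filter, Finset.mem_Icc]
        exact ⟨hnat z hz.1, hz.2⟩)
    have h2 := htyp H hH1
    have h3 : (S₂.card : ℝ) ≤ (2 * (H : ℝ) + 1) * (2 * (((Finset.Icc 1 H).filter
      (fun c => 6 / 5 * LL H < (c.primeFactors.card : ℝ))).card : ℝ)) := by exact_mod_cast h1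
    have h4 : Real.exp (- (1 / 60) * LL H) ≤ Real.exp (- (1 / 70) * LL H) :=
      Real.exp_le_exp.2 (by linarith)
    calc (S₂.card : ℝ) ≤ (2 * (H : ℝ) + 1) * (2 * (((Finset.Icc 1 H).filter
          (fun c => 6 / 5 * LL H < (c.primeFactors.card : ℝ))).card : ℝ)) := h3
      _ ≤ (3 * H) * (2 * (C₄ * H * Real.exp (- (1 / 60) * LL H))) := by
          apply mul_le_mul h3H (by linarith) (by positivity) (by positivity)
      _ ≤ (3 * H) * (2 * (C₄ * H * Real.exp (- (1 / 70) * LL H))) := by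
          apply mul_le_mul_of_nonneg_left _ (by positivity)
          apply mul_le_mul_of_nonneg_left _ (by norm_num)
          exact mul_le_mul_of_nonneg_left h4 (by positivity)
      _ = 6 * C₄ * (H : ℝ) ^ 2 * Real.exp (- (1 / 70) * LL H) := by ring
  -- part 3
  obtain ⟨S₃, hS₃⟩ : ∃ S₃ : Finset (ℤ × ℤ), S₃ = S.filter (fun z => ∃ d ∈ E, (d : ℤ) ∣ z.2) :=
    ⟨_, rfl⟩
  have hb3 : (S₃.card : ℝ) ≤ 6 * C₅ * (H : ℝ) ^ 2 * Real.exp (- (1 / 70) * LL H) := by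
    have hsub : S₃ ⊆ E.biUnion (fun d => S.filter (fun z => (d : ℤ) ∣ z.2)) := by
      intro z hz
      rw [hS₃, Finset.mem_filter] at hz
      obtain ⟨hz1, d, hd, hdz⟩ := hz
      rw [Finset.mem_biUnion]
      exact ⟨d, hd, Finset.mem_filter.2 ⟨hz1, hdz⟩⟩
    have h1 := (Finset.card_le_card hsub).trans Finset.card_biUnion_le
    have h2 : ∀ d ∈ E, ((S.filter (fun z => (d : ℤ) ∣ z.2)).card : ℝ) ≤
        (6 * (H : ℝ) ^ 2) * (1 / (d : ℝ)) := by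
      intro d hd
      rw [hE, Finset.mem_filter, Finset.mem_Icc] at hd
      have hd0 : (0 : ℝ) < d := by
        have : 0 < d := by omega
        exact_mod_cast this
      have h3 := C7_two H ((Finset.Ioc 0 H).filter (fun c => d ∣ c))
        (S.filter (fun z => (d : ℤ) ∣ z.2)) (fun z hz => by
          rw [Finset.mem_filter] at hz
          refine ⟨(hS z hz.1).1, ?_⟩
          rw [Finset.mem_filter, Finset.mem_Ioc]
          obtain ⟨g1, g2⟩ := hnat z hz.1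
          exact ⟨⟨by omega, g2⟩, Int.natCast_dvd.1 hz.2⟩)
      rw [Nat.Ioc_filter_dvd_card_eq_div] at h3
      have h4 : ((S.filter (fun z => (d : ℤ) ∣ z.2)).card : ℝ) ≤
          (2 * (H : ℝ) + 1) * (2 * ((H / d : ℕ) : ℝ)) := by exact_mod_cast h3
      have h5 : ((H / d : ℕ) : ℝ) ≤ (H : ℝ) / d := Nat.cast_div_le
      calc ((S.filter (fun z => (d : ℤ) ∣ z.2)).card : ℝ)
          ≤ (2 * (H : ℝ) + 1) * (2 * ((H / d : ℕ) : ℝ)) := h4
        _ ≤ (3 * H) * (2 * ((H : ℝ) / d)) :=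
            mul_le_mul h3H (by linarith) (by positivity) (by positivity)
        _ = (6 * (H : ℝ) ^ 2) * (1 / (d : ℝ)) := by ring
    have h6 : (S₃.card : ℝ) ≤ ∑ d ∈ E, ((S.filter (fun z => (d : ℤ) ∣ z.2)).card : ℝ) := by
      exact_mod_cast h1
    have h7 : Real.exp (- LL H) ≤ Real.exp (- (1 / 70) * LL H) :=
      Real.exp_le_exp.2 (by linarith)
    calc (S₃.card : ℝ) ≤ ∑ d ∈ E, ((S.filter (fun z => (d : ℤ) ∣ z.2)).card : ℝ) := h6
      _ ≤ ∑ d ∈ E, (6 * (H : ℝ) ^ 2) * (1 / (d : ℝ)) := Finset.sum_le_sum h2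
      _ = (6 * (H : ℝ) ^ 2) * ∑ d ∈ E, 1 / (d : ℝ) := by rw [Finset.mul_sum]
      _ ≤ (6 * (H : ℝ) ^ 2) * (C₅ * Real.exp (- LL H)) :=
          mul_le_mul_of_nonneg_left hEsum (by positivity)
      _ ≤ (6 * (H : ℝ) ^ 2) * (C₅ * Real.exp (- (1 / 70) * LL H)) := by
          apply mul_le_mul_of_nonneg_left _ (by positivity)
          exact mul_le_mul_of_nonneg_left h7 hC₅.le
      _ = 6 * C₅ * (H : ℝ) ^ 2 * Real.exp (- (1 / 70) * LL H) := by ring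
  -- part 4
  obtain ⟨S₄, hS₄⟩ : ∃ S₄ : Finset (ℤ × ℤ), S₄ = S.filter (fun z =>
      (¬ ∃ p : ℕ, p.Prime ∧ w < p ∧
      ((p : ℤ) ^ 2 ∣ 3 * z.1 - 2 * z.2 ∨ (p : ℤ) ^ 2 ∣ 3 * z.1 + 2 * z.2 ∨
        ((p : ℤ) ∣ z.1 ∧ (p : ℤ) ∣ z.2))) ∧
      (¬ 6 / 5 * LL H < (z.2.natAbs.primeFactors.card : ℝ)) ∧
      ¬ ∃ d ∈ E, (d : ℤ) ∣ z.2) := ⟨_, rfl⟩
  have hb4 : (S₄.card : ℝ) ≤ 3 * C₃ * Real.exp (Real.log (k + 1) + 242 + 2 * C₆) *
      (H : ℝ) ^ 2 * Real.exp (- (1 / 70) * LL H) := by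
    obtain ⟨B, hB⟩ : ∃ B : ℝ, B = C₃ * H *
      Real.exp (Real.log (k + 1) + 242 + 2 * C₆ - 849 / 1000 * LL H) := ⟨_, rfl⟩
    have hB0 : 0 ≤ B := by
      rw [hB]
      positivity
    obtain ⟨Cs, hCs⟩ : ∃ Cs : Finset ℤ, Cs = (Finset.Icc (-(H : ℤ)) H).filter (fun c => c ≠ 0 ∧
      (c.natAbs.primeFactors.card : ℝ) ≤ 6 / 5 * LL H) := ⟨_, rfl⟩
    obtain ⟨Ds, hDs⟩ : ∃ Ds : ℤ → Finset ℕ, Ds = fun c => c.natAbs.divisors.filter
      (fun d => Squarefree d ∧ 1 < d ∧ d ∉ E) := ⟨_, rfl⟩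
    obtain ⟨T, hT⟩ : ∃ T : ℤ → ℕ → Finset ℤ, T = fun c d => (S₄.filter (fun z => z.2 = c ∧
      ∀ p : ℕ, p.Prime → p ≠ 2 → ¬ p ∣ d →
        (p : ℤ) ∣ (3 * z.1) ^ 2 - 4 * z.2 ^ 2 → ¬ (p : ℤ) ^ 2 ∣ (3 * z.1) ^ 2 - 4 * z.2 ^ 2 →
        jacobiSym (d : ℤ) p = 1)).image Prod.fst := ⟨_, rfl⟩
    have hTB : ∀ c ∈ Cs, ∀ d ∈ Ds c, ((T c d).card : ℝ) ≤ B := by
      intro c hc d hd
      rw [hCs, Finset.mem_filter, Finset.mem_Icc] at hc
      rw [hDs] at hd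
      simp only [Finset.mem_filter, Nat.mem_divisors] at hd
      obtain ⟨⟨hdc, hc0⟩, hdsq, hd1, hdE⟩ := hd
      have hdc' : (d : ℤ) ∣ c := Int.natCast_dvd.2 hdc
      have hdH : d ≤ H := by
        have h1 := Nat.le_of_dvd (Int.natAbs_pos.2 hc.2.1) hdc
        omega
      have hn : ∑ p ∈ PP z, (jacobiSym (d : ℤ) p : ℝ) / p ≤ 1 / 1000 * LL H := by
        by_contra hcon
        rw [not_le] at hcon
        apply hdE
        rw [hE, Finset.mem_filter, Finset.mem_Icc]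
        exact ⟨⟨by omega, hdH⟩, hdsq, z, by omega, hzH, hcon⟩
      have hm := hminus H z w d c (by omega) hzH (by omega) hc.2.1 (abs_le.2 hc.1) hdc' hn
      refine (hsieve H z w c ((PP z).filter (fun p => w < p ∧ ¬ (p : ℤ) ∣ c ∧
        jacobiSym (d : ℤ) p = -1)) hw4 hz2 hzk ?_ (T c d) ?_).trans ?_
      · intro p hp
        rw [Finset.mem_filter] at hp
        obtain ⟨hp1, hp2, hp3, hp4⟩ := hp
        unfold PP at hp1
        rw [Finset.mem_filter, Finset.mem_Icc] at hp1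
        exact ⟨hp1.2, hp2, hp1.1.2, hp3⟩
      · intro e he
        rw [hT] at he
        simp only [Finset.mem_image, Finset.mem_filter] at he
        obtain ⟨x, ⟨hx4, hxc, hxd⟩, hxe⟩ := he
        rw [hS₄, Finset.mem_filter] at hx4
        obtain ⟨hxS, hx1, -, -⟩ := hx4
        subst hxe
        subst hxc
        refine ⟨(hS x hxS).1, ?_⟩
        intro p hp
        rw [Finset.mem_filter] at hp
        obtain ⟨hp1, hp2, hp3, hp4⟩ := hp
        unfold PP at hp1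
        rw [Finset.mem_filter, Finset.mem_Icc] at hp1
        exact C7_notdvd x.1 x.2 w d p hw4 hp1.2 hp2 hp3 hp4
          (fun h => hx1 ⟨p, hp1.2, hp2, Or.inl h⟩)
          (fun h => hx1 ⟨p, hp1.2, hp2, Or.inr (Or.inl h)⟩) hxd
      · rw [hB]
        exact C7_a4 C₃ C₆ hC₃ H k w z hk hH1 hw hz _ hm
    have hsub : S₄ ⊆ Cs.biUnion (fun c => (Ds c).biUnion (fun d =>
        (T c d).image (fun e => (e, c)))) := by
      intro x hx
      have hx' := hx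
      rw [hS₄, Finset.mem_filter] at hx'
      obtain ⟨hxS, -, hx2, hx3⟩ := hx'
      obtain ⟨g1, g2, g3, g4, d, hd1, hdsq, hdx, hdp⟩ := hS x hxS
      rw [Finset.mem_biUnion]
      refine ⟨x.2, ?_, ?_⟩
      · rw [hCs, Finset.mem_filter, Finset.mem_Icc]
        exact ⟨abs_le.1 g2, g3, not_lt.1 hx2⟩
      · rw [Finset.mem_biUnion]
        refine ⟨d, ?_, ?_⟩
        · rw [hDs]
          simp only [Finset.mem_filter, Nat.mem_divisors]
          exact ⟨⟨Int.natCast_dvd.1 hdx, Int.natAbs_ne_zero.2 g3⟩, hdsq, hd1,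
            fun hE' => hx3 ⟨d, hE', hdx⟩⟩
        · rw [Finset.mem_image]
          refine ⟨x.1, ?_, rfl⟩
          rw [hT]
          simp only [Finset.mem_image, Finset.mem_filter]
          exact ⟨x, ⟨hx, rfl, hdp⟩, rfl⟩
    have h1 : (S₄.card : ℝ) ≤ ∑ c ∈ Cs, ∑ d ∈ Ds c, ((T c d).card : ℝ) := by
      have h2 := (Finset.card_le_card hsub).trans Finset.card_biUnion_le
      have h3 : ∀ c ∈ Cs, ((Ds c).biUnion (fun d => (T c d).image (fun e => (e, c)))).card ≤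
          ∑ d ∈ Ds c, (T c d).card := by
        intro c _
        refine Finset.card_biUnion_le.trans (Finset.sum_le_sum fun d _ => ?_)
        exact Finset.card_image_le
      have h4 := h2.trans (Finset.sum_le_sum h3)
      exact_mod_cast h4
    have h2 : ∀ c ∈ Cs, ∑ d ∈ Ds c, ((T c d).card : ℝ) ≤ Real.exp (832 / 1000 * LL H) * B := by
      intro c hc
      have h3 : ∑ d ∈ Ds c, ((T c d).card : ℝ) ≤ ∑ d ∈ Ds c, B :=
        Finset.sum_le_sum (hTB c hc)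
      rw [Finset.sum_const, nsmul_eq_mul] at h3
      refine h3.trans (mul_le_mul_of_nonneg_right ?_ hB0)
      rw [hCs, Finset.mem_filter] at hc
      have h4 := C7_sqf c.natAbs (Int.natAbs_ne_zero.2 hc.2.1) (Ds c) (fun d hd => by
        rw [hDs] at hd
        simp only [Finset.mem_filter, Nat.mem_divisors] at hd
        exact ⟨hd.2.1, hd.1.1⟩)
      have h5 : ((Ds c).card : ℝ) ≤ (2 : ℝ) ^ c.natAbs.primeFactors.card := by exact_mod_cast h4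
      exact h5.trans (C7_pow _ _ hL0 hc.2.2)
    have h3 : (Cs.card : ℝ) ≤ 3 * H := by
      have h4 : Cs.card ≤ 2 * H + 1 := by
        rw [hCs]
        refine (Finset.card_filter_le _ _).trans ?_
        rw [Int.card_Icc]
        omega
      have h5 : (Cs.card : ℝ) ≤ 2 * (H : ℝ) + 1 := by exact_mod_cast h4
      linarith
    have h4 : Real.exp (832 / 1000 * LL H) * B ≤
        C₃ * H * Real.exp (Real.log (k + 1) + 242 + 2 * C₆) * Real.exp (- (1 / 70) * LL H) := by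
      rw [hB]
      have h5 : Real.exp (832 / 1000 * LL H) * (C₃ * H *
          Real.exp (Real.log (k + 1) + 242 + 2 * C₆ - 849 / 1000 * LL H)) =
          C₃ * H * (Real.exp (832 / 1000 * LL H) *
          Real.exp (Real.log (k + 1) + 242 + 2 * C₆ - 849 / 1000 * LL H)) := by ring
      rw [h5, mul_assoc (C₃ * (H : ℝ)), ← Real.exp_add, ← Real.exp_add]
      apply mul_le_mul_of_nonneg_left _ (by positivity)
      apply Real.exp_le_exp.2
      linarith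
    calc (S₄.card : ℝ) ≤ ∑ c ∈ Cs, ∑ d ∈ Ds c, ((T c d).card : ℝ) := h1
      _ ≤ ∑ c ∈ Cs, Real.exp (832 / 1000 * LL H) * B := Finset.sum_le_sum h2
      _ = Cs.card * (Real.exp (832 / 1000 * LL H) * B) := by
          rw [Finset.sum_const, nsmul_eq_mul]
      _ ≤ (3 * H) * (C₃ * H * Real.exp (Real.log (k + 1) + 242 + 2 * C₆) *
            Real.exp (- (1 / 70) * LL H)) :=
          mul_le_mul h3 h4 (by positivity) (by positivity)
      _ = 3 * C₃ * Real.exp (Real.log (k + 1) + 242 + 2 * C₆) *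
            (H : ℝ) ^ 2 * Real.exp (- (1 / 70) * LL H) := by ring
  -- sum
  have hunion : S ⊆ S₁ ∪ (S₂ ∪ (S₃ ∪ S₄)) := by
    intro x hx
    simp only [Finset.mem_union]
    rw [hS₁, hS₂, hS₃, hS₄, Finset.mem_filter, Finset.mem_filter, Finset.mem_filter,
      Finset.mem_filter]
    by_cases h1 : ∃ p : ℕ, p.Prime ∧ w < p ∧
      ((p : ℤ) ^ 2 ∣ 3 * x.1 - 2 * x.2 ∨ (p : ℤ) ^ 2 ∣ 3 * x.1 + 2 * x.2 ∨
        ((p : ℤ) ∣ x.1 ∧ (p : ℤ) ∣ x.2))
    · exact Or.inl ⟨hx, h1⟩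
    by_cases h2 : 6 / 5 * LL H < (x.2.natAbs.primeFactors.card : ℝ)
    · exact Or.inr (Or.inl ⟨hx, h2⟩)
    by_cases h3 : ∃ d ∈ E, (d : ℤ) ∣ x.2
    · exact Or.inr (Or.inr (Or.inl ⟨hx, h3⟩))
    exact Or.inr (Or.inr (Or.inr ⟨hx, h1, h2, h3⟩))
  have hcard : S.card ≤ S₁.card + (S₂.card + (S₃.card + S₄.card)) :=
    (Finset.card_le_card hunion).trans ((Finset.card_union_le _ _).trans
      (Nat.add_le_add_left ((Finset.card_union_le _ _).trans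
        (Nat.add_le_add_left (Finset.card_union_le _ _) _)) _))
  have hcard' : (S.card : ℝ) ≤ S₁.card + (S₂.card + (S₃.card + S₄.card)) := by
    exact_mod_cast hcard
  have hfin : (4 * C₂ + 6 * C₄ + 6 * C₅ + 3 * C₃ * Real.exp (Real.log (k + 1) + 242 + 2 * C₆)) *
      (H : ℝ) ^ 2 * Real.exp (- (1 / 70) * LL H) =
      4 * C₂ * (H : ℝ) ^ 2 * Real.exp (- (1 / 70) * LL H) +
      (6 * C₄ * (H : ℝ) ^ 2 * Real.exp (- (1 / 70) * LL H) +
      (6 * C₅ * (H : ℝ) ^ 2 * Real.exp (- (1 / 70) * LL H) +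
      3 * C₃ * Real.exp (Real.log (k + 1) + 242 + 2 * C₆) *
            (H : ℝ) ^ 2 * Real.exp (- (1 / 70) * LL H))) := by ring
  rw [hfin]
  linarith

end TwC
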