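import Mathlib

namespace TwC

private theorem C8a_S (e c : ℤ) (hc : c ≠ 0) :
    e ^ 2 + c ^ 2 ≤ 10 * max |c ^ 2 - 3 * e ^ 2| |2 * e ^ 3 - c ^ 2 * e| := by
  have hc2 : 1 ≤ c ^ 2 := by
    have := sq_pos_of_ne_zero hc
    omega
  have he2 : 0 ≤ e ^ 2 := sq_nonneg e
  rcases le_or_gt (e ^ 2 + c ^ 2) (10 * |c ^ 2 - 3 * e ^ 2|) with h | h
  · exact h.trans (mul_le_mul_of_nonneg_left (le_max_left _ _) (by norm_num))
  · have h1 := neg_abs_le (c ^ 2 - 3 * e ^ 2)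
    have h2 := le_abs_self (c ^ 2 - 3 * e ^ 2)
    have he : e ≠ 0 := by
      rintro rfl
      simp only [ne_eq, OfNat.ofNat_ne_zero, not_false_eq_true, zero_pow, mul_zero, sub_zero,
        zero_add] at h h2
      omega
    have he1 : 1 ≤ |e| := Int.one_le_abs he
    have hB : |2 * e ^ 3 - c ^ 2 * e| = |e| * |2 * e ^ 2 - c ^ 2| := by
      rw [← abs_mul]
      congr 1
      ring
    have h3 : c ^ 2 - 2 * e ^ 2 ≤ |2 * e ^ 2 - c ^ 2| := by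
      have := neg_le_abs (2 * e ^ 2 - c ^ 2)
      linarith
    have h4 : |2 * e ^ 2 - c ^ 2| ≤ |2 * e ^ 3 - c ^ 2 * e| := by
      rw [hB]
      exact le_mul_of_one_le_left (abs_nonneg _) he1
    have h5 : e ^ 2 + c ^ 2 ≤ 10 * |2 * e ^ 3 - c ^ 2 * e| := by linarith
    exact h5.trans (mul_le_mul_of_nonneg_left (le_max_right _ _) (by norm_num))

/-- Row C8a. Sizes. `x' = x - e` satisfies `y^2 = x'(x'^2 + 3e x' + c^2)`. With
`M = max |A| |B|`, `A = c^2 - 3e^2`, `B = 2e^3 - c^2 e`: `e^2 + c^2 ≤ 10 M` (if `|A| ≤ (e^2+c^2)/10` then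
`c^2 ≤ 3.45 e^2`, `|B| ≥ 0.55 |e|^3`). If `|x'| ≤ 9e^2 + 4c^2 + 3|e|` then `|x| ≤ 13(e^2+c^2) ≤ 130 M`,
`y^2 ≤ (130^3 + 131) M^3`, so `max |x| |y| ≤ 1500 M^(3/2)`. -/
theorem size (e c x y : ℤ) (hc : c ≠ 0)
    (h : y ^ 2 = x ^ 3 + (c ^ 2 - 3 * e ^ 2) * x + (2 * e ^ 3 - c ^ 2 * e))
    (hx : 1500 * (max ((|c ^ 2 - 3 * e ^ 2| : ℤ) : ℝ) ((|2 * e ^ 3 - c ^ 2 * e| : ℤ) : ℝ)) ^ (3 / 2 : ℝ)
      < max ((|x| : ℤ) : ℝ) ((|y| : ℤ) : ℝ)) :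
    (3 * e) ^ 2 + 4 * c ^ 2 + |3 * e| < |x - e| := by
  by_contra hcon
  rw [not_lt] at hcon
  have hS := C8a_S e c hc
  have hc2 : 1 ≤ c ^ 2 := by
    have := sq_pos_of_ne_zero hc
    omega
  have he2 : 0 ≤ e ^ 2 := sq_nonneg e
  have hxa : |x| ≤ 13 * (e ^ 2 + c ^ 2) := by
    have h1 : |x| ≤ |x - e| + |e| := by
      have := abs_add_le (x - e) e
      rwa [sub_add_cancel] at this
    have h2 : |3 * e| = 3 * |e| := by
      rw [abs_mul]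
      norm_num
    have h3 : |e| ≤ e ^ 2 := by
      rw [← sq_abs e]
      rcases eq_or_ne e 0 with rfl | he
      · simp
      · exact le_self_pow₀ (Int.one_le_abs he) (by norm_num)
    have h4 : (3 * e) ^ 2 = 9 * e ^ 2 := by ring
    rw [h2, h4] at hcon
    linarith
  have hA : |c ^ 2 - 3 * e ^ 2| ≤ max |c ^ 2 - 3 * e ^ 2| |2 * e ^ 3 - c ^ 2 * e| := le_max_left _ _
  have hB : |2 * e ^ 3 - c ^ 2 * e| ≤ max |c ^ 2 - 3 * e ^ 2| |2 * e ^ 3 - c ^ 2 * e| :=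
    le_max_right _ _
  rw [← Int.cast_max, ← Int.cast_max] at hx
  generalize max |c ^ 2 - 3 * e ^ 2| |2 * e ^ 3 - c ^ 2 * e| = M at hx hS hA hB
  generalize c ^ 2 - 3 * e ^ 2 = A at hA h
  generalize 2 * e ^ 3 - c ^ 2 * e = B at hB h
  have hM : 1 ≤ M := by omega
  have hxM : |x| ≤ 130 * M := by linarith
  have hyM : y ^ 2 ≤ 2250000 * M ^ 3 := by
    have h1 : x ^ 3 ≤ (130 * M) ^ 3 := by
      have h2 : x ≤ 130 * M := (le_abs_self x).trans hxM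
      have h3 : Odd 3 := by decide
      exact h3.strictMono_pow.monotone h2
    have h2 : A * x ≤ M * (130 * M) := by
      refine (le_abs_self _).trans ?_
      rw [abs_mul]
      exact mul_le_mul hA hxM (abs_nonneg _) (by omega)
    have h3 : B ≤ M := (le_abs_self B).trans hB
    have h4 : M ≤ M ^ 3 := le_self_pow₀ hM (by norm_num)
    have h5 : M ^ 2 ≤ M ^ 3 := pow_le_pow_right₀ hM (by norm_num)
    rw [h]
    nlinarith [h1, h2, h3, h4, h5]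
  have hMr : (1 : ℝ) ≤ M := by exact_mod_cast hM
  have hr2 : ((M : ℝ) ^ (3 / 2 : ℝ)) ^ 2 = (M : ℝ) ^ 3 := by
    rw [← Real.rpow_natCast, ← Real.rpow_mul (by linarith), ← Real.rpow_natCast]
    norm_num
  have hrM : (M : ℝ) ≤ (M : ℝ) ^ (3 / 2 : ℝ) := by
    have h1 := Real.rpow_le_rpow_of_exponent_le hMr (by norm_num : (1 : ℝ) ≤ 3 / 2)
    rwa [Real.rpow_one] at h1
  have hr0 : (0 : ℝ) ≤ (M : ℝ) ^ (3 / 2 : ℝ) := by linarith
  have hyr : |(y : ℝ)| ≤ 1500 * (M : ℝ) ^ (3 / 2 : ℝ) := by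
    apply abs_le_of_sq_le_sq _ (by linarith)
    rw [mul_pow, hr2]
    have h1 : ((y ^ 2 : ℤ) : ℝ) ≤ ((2250000 * M ^ 3 : ℤ) : ℝ) := by exact_mod_cast hyM
    push_cast at h1
    linarith
  have hxr : ((|x| : ℤ) : ℝ) ≤ 130 * (M : ℝ) := by exact_mod_cast hxM
  rw [Int.cast_max] at hx
  rcases lt_max_iff.1 hx with h1 | h1
  · linarith
  · rw [Int.cast_abs] at h1
    linarith

end TwC
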