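import Pool.Agent.LibTwC.C1
import Pool.Agent.LibTwC.C7
import Pool.Agent.LibTwC.C8a

namespace TwC

private theorem C8b_cond (e c x y : ℤ) (hc : c ≠ 0) (hne : 9 * e ^ 2 ≠ 4 * c ^ 2)
    (h : y ^ 2 = x ^ 3 + (c ^ 2 - 3 * e ^ 2) * x + (2 * e ^ 3 - c ^ 2 * e))
    (hx : 1500 * (max ((|c ^ 2 - 3 * e ^ 2| : ℤ) : ℝ) ((|2 * e ^ 3 - c ^ 2 * e| : ℤ) : ℝ)) ^ (3 / 2 : ℝ)
      < max ((|x| : ℤ) : ℝ) ((|y| : ℤ) : ℝ)) :
    ∃ d : ℕ, 1 < d ∧ Squarefree d ∧ (d : ℤ) ∣ c ∧ ∀ p : ℕ, p.Prime → p ≠ 2 → ¬ p ∣ d →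
      (p : ℤ) ∣ (3 * e) ^ 2 - 4 * c ^ 2 → ¬ (p : ℤ) ^ 2 ∣ (3 * e) ^ 2 - 4 * c ^ 2 →
        jacobiSym (d : ℤ) p = 1 := by
  apply class_cond (3 * e) c (x - e) y hc
  · intro h0
    apply hne
    linear_combination h0
  · rw [h]
    ring
  · exact size e c x y hc h hx

private theorem C8b_card (H : ℕ) (hH : 2 ≤ H) (S : Finset (ℤ × ℤ))
    (hS : ∀ z ∈ S, |z.1| ≤ H ∧ |z.2| ≤ H) : (S.card : ℝ) ≤ 9 * (H : ℝ) ^ 2 := by
  have hsub : S ⊆ Finset.Icc (-(H : ℤ)) H ×ˢ Finset.Icc (-(H : ℤ)) H := by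
    intro z hz
    obtain ⟨h1, h2⟩ := hS z hz
    rw [abs_le] at h1 h2
    rw [Finset.mem_product, Finset.mem_Icc, Finset.mem_Icc]
    exact ⟨h1, h2⟩
  have h1 := Finset.card_le_card hsub
  rw [Finset.card_product, Int.card_Icc] at h1
  have h2 : ((H : ℤ) + 1 - -(H : ℤ)).toNat = 2 * H + 1 := by omega
  rw [h2] at h1
  have h3 : (2 * H + 1) * (2 * H + 1) ≤ 9 * H ^ 2 := by nlinarith
  exact_mod_cast h1.trans h3

/-- Row C8b. `size`, `class_cond` for `x - e`, `a = 3e`, then `count`; `exp (-LL H/70) = (1 + log H)^(-1/70)`;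
for `2 ≤ H < H₀` the trivial bound `(2H+1)^2` and a large constant. -/
theorem final : ∃ C : ℝ, 0 < C ∧ ∀ H : ℕ, 2 ≤ H → ∀ S : Finset (ℤ × ℤ),
    (∀ z ∈ S, |z.1| ≤ H ∧ |z.2| ≤ H ∧ z.2 ≠ 0 ∧ 9 * z.1 ^ 2 ≠ 4 * z.2 ^ 2 ∧ ∃ x y : ℤ,
      y ^ 2 = x ^ 3 + (z.2 ^ 2 - 3 * z.1 ^ 2) * x + (2 * z.1 ^ 3 - z.2 ^ 2 * z.1) ∧
      1500 * (max ((|z.2 ^ 2 - 3 * z.1 ^ 2| : ℤ) : ℝ)
        ((|2 * z.1 ^ 3 - z.2 ^ 2 * z.1| : ℤ) : ℝ)) ^ (3 / 2 : ℝ)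
      < max ((|x| : ℤ) : ℝ) ((|y| : ℤ) : ℝ)) →
    (S.card : ℝ) ≤ C * (H : ℝ) ^ 2 / (Real.log H) ^ (1 / 70 : ℝ) := by
  obtain ⟨C, hC, H₀, hcount⟩ := count
  refine ⟨C + 9 * (1 + H₀), by positivity, ?_⟩
  intro H hH S hS
  have hHr : (2 : ℝ) ≤ H := by exact_mod_cast hH
  have hlog : 0 < Real.log H := Real.log_pos (by linarith)
  have hpow : 0 < Real.log H ^ (1 / 70 : ℝ) := Real.rpow_pos_of_pos hlog _
  rw [le_div_iff₀ hpow]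
  rcases le_or_gt H₀ H with h0 | h0
  · have h1 := hcount H h0 S (fun z hz => by
      obtain ⟨g1, g2, g3, g4, x, y, g5, g6⟩ := hS z hz
      exact ⟨g1, g2, g3, g4, C8b_cond z.1 z.2 x y g3 g4 g5 g6⟩)
    have h2 : Real.exp (- (1 / 70) * TwHL.LL H) * Real.log H ^ (1 / 70 : ℝ) ≤ 1 := by
      unfold TwHL.LL
      have h3 : Real.exp (- (1 / 70) * Real.log (1 + Real.log H))
          = ((1 + Real.log H) ^ (1 / 70 : ℝ))⁻¹ := by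
        rw [← Real.rpow_neg (by linarith), Real.rpow_def_of_pos (by linarith)]
        congr 1
        ring
      rw [h3, inv_mul_le_iff₀ (Real.rpow_pos_of_pos (by linarith) _), mul_one]
      exact Real.rpow_le_rpow hlog.le (by linarith) (by norm_num)
    calc (S.card : ℝ) * Real.log H ^ (1 / 70 : ℝ)
        ≤ (C * (H : ℝ) ^ 2 * Real.exp (- (1 / 70) * TwHL.LL H)) * Real.log H ^ (1 / 70 : ℝ) :=
          mul_le_mul_of_nonneg_right h1 hpow.le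
      _ = C * (H : ℝ) ^ 2 * (Real.exp (- (1 / 70) * TwHL.LL H) * Real.log H ^ (1 / 70 : ℝ)) := by
          ring
      _ ≤ C * (H : ℝ) ^ 2 * 1 := mul_le_mul_of_nonneg_left h2 (by positivity)
      _ ≤ (C + 9 * (1 + H₀)) * (H : ℝ) ^ 2 := by
          have h4 : (0 : ℝ) ≤ 9 * (1 + H₀) * (H : ℝ) ^ 2 := by positivity
          linarith
  · have h1 := C8b_card H hH S (fun z hz => ⟨(hS z hz).1, (hS z hz).2.1⟩)
    have h2 : Real.log H ^ (1 / 70 : ℝ) ≤ 1 + H₀ := by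
      have h3 : Real.log H ≤ 1 + H₀ := by
        have h4 : Real.log H ≤ H := Real.log_le_self (by linarith)
        have h5 : (H : ℝ) ≤ H₀ := by exact_mod_cast h0.le
        linarith
      have h6 : (1 : ℝ) ≤ 1 + H₀ := by
        have : (0 : ℝ) ≤ H₀ := Nat.cast_nonneg _
        linarith
      calc Real.log H ^ (1 / 70 : ℝ) ≤ (1 + H₀ : ℝ) ^ (1 / 70 : ℝ) :=
            Real.rpow_le_rpow hlog.le h3 (by norm_num)
        _ ≤ (1 + H₀ : ℝ) ^ (1 : ℝ) := Real.rpow_le_rpow_of_exponent_le h6 (by norm_num)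
        _ = 1 + H₀ := Real.rpow_one _
    calc (S.card : ℝ) * Real.log H ^ (1 / 70 : ℝ) ≤ (9 * (H : ℝ) ^ 2) * (1 + H₀) :=
          mul_le_mul h1 h2 hpow.le (by positivity)
      _ ≤ (C + 9 * (1 + H₀)) * (H : ℝ) ^ 2 := by
          have h4 : (0 : ℝ) ≤ C * (H : ℝ) ^ 2 := by positivity
          linarith

end TwC
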