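import Pool.Agent.LibTwC.C8

set_option autoImplicit false

namespace TwC

/-- `y^2 = x^3 + A x + B` has a rational cyclic subgroup of order four, in elementary terms: there is
an integral 2-torsion point `(e, 0)` and the derivative `3 e^2 + A` of the cubic at `e` is a square. -/
def Cyc4 (A B : ℤ) : Prop := ∃ e c : ℤ, e ^ 3 + A * e + B = 0 ∧ 3 * e ^ 2 + A = c ^ 2

theorem disc_eq (e c : ℤ) :
    4 * (c ^ 2 - 3 * e ^ 2) ^ 3 + 27 * (2 * e ^ 3 - c ^ 2 * e) ^ 2 = c ^ 4 * (4 * c ^ 2 - 9 * e ^ 2) := by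
  ring

/-- the parameters are bounded by the height -/
theorem par_le (e c h : ℤ) (hh : 0 < h) (hA : |c ^ 2 - 3 * e ^ 2| ≤ h ^ 2)
    (hB : |2 * e ^ 3 - c ^ 2 * e| ≤ h ^ 3) : |e| ≤ 4 * h ∧ |c| ≤ 4 * h := by
  have hA1 := (abs_le.1 hA).1
  have hA2 := (abs_le.1 hA).2
  have key : e ^ 2 + c ^ 2 ≤ 16 * h ^ 2 := by
    by_contra hc
    push Not at hc
    have h1 : 15 * c ^ 2 < 49 * e ^ 2 := by nlinarith
    have h2 : 47 * e ^ 2 < 17 * c ^ 2 := by nlinarith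
    have h3 : 3 * h ^ 2 < e ^ 2 := by nlinarith
    have h4 : h < |e| := by
      have : h ^ 2 < |e| ^ 2 := by rw [sq_abs]; nlinarith
      exact lt_of_pow_lt_pow_left₀ 2 (abs_nonneg e) this
    have h5 : |2 * e ^ 3 - c ^ 2 * e| = |e| * (c ^ 2 - 2 * e ^ 2) := by
      have : 2 * e ^ 3 - c ^ 2 * e = - (e * (c ^ 2 - 2 * e ^ 2)) := by ring
      rw [this, abs_neg, abs_mul, abs_of_nonneg (a := c ^ 2 - 2 * e ^ 2) (by nlinarith)]
    rw [h5] at hB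
    have h6 : h ^ 2 < c ^ 2 - 2 * e ^ 2 := by nlinarith
    have h7 : h * h ^ 2 < |e| * (c ^ 2 - 2 * e ^ 2) := by
      apply mul_lt_mul h4 h6.le (by positivity) (abs_nonneg e)
    nlinarith
  constructor
  · apply abs_le_of_sq_le_sq' _ (by omega) |> abs_le.2
    nlinarith [sq_nonneg c]
  · apply abs_le_of_sq_le_sq' _ (by omega) |> abs_le.2
    nlinarith [sq_nonneg e]

/-- the curves of height at most `H` in the family -/
def Fam (H : ℕ) : Set (ℤ × ℤ) :=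
  {p | |p.1| ≤ (H : ℤ) ^ 2 ∧ |p.2| ≤ (H : ℤ) ^ 3 ∧ 4 * p.1 ^ 3 + 27 * p.2 ^ 2 ≠ 0 ∧ Cyc4 p.1 p.2}

theorem fam_finite (H : ℕ) : (Fam H).Finite := by
  apply Set.Finite.subset (Set.finite_Icc ((-(H : ℤ) ^ 2, -(H : ℤ) ^ 3) : ℤ × ℤ)
    ((H : ℤ) ^ 2, (H : ℤ) ^ 3))
  rintro ⟨A, B⟩ ⟨h1, h2, -, -⟩
  have h1' := abs_le.1 h1
  have h2' := abs_le.1 h2
  exact ⟨⟨h1'.1, h2'.1⟩, ⟨h1'.2, h2'.2⟩⟩

/-- there are at least `H^2 / 4` curves in the family -/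
theorem fam_card (H : ℕ) : (H : ℝ) ^ 2 / 4 ≤ ((Fam H).ncard : ℝ) := by
  classical
  set T : Finset (Σ _ : ℕ, ℕ) := (Finset.Icc 1 H).sigma (fun c => Finset.range (c / 2 + 1)) with hT
  let g : (Σ _ : ℕ, ℕ) → ℤ × ℤ := fun s =>
    ((s.1 : ℤ) ^ 2 - 3 * (s.2 : ℤ) ^ 2, 2 * (s.2 : ℤ) ^ 3 - (s.1 : ℤ) ^ 2 * (s.2 : ℤ))
  have hmem : ∀ s ∈ T, 1 ≤ s.1 ∧ s.1 ≤ H ∧ 2 * s.2 ≤ s.1 := by
    rintro ⟨c, e⟩ hs
    rw [hT, Finset.mem_sigma] at hs
    simp only [Finset.mem_Icc, Finset.mem_range] at hs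
    refine ⟨hs.1.1, hs.1.2, ?_⟩
    have := hs.2
    simp only
    omega
  have hinj : Set.InjOn g (T : Set (Σ _ : ℕ, ℕ)) := by
    rintro ⟨c, e⟩ hs ⟨c', e'⟩ hs' hg
    obtain ⟨h1, -, h3⟩ := hmem _ hs
    obtain ⟨h1', -, h3'⟩ := hmem _ hs'
    simp only at h1 h3 h1' h3'
    simp only [g, Prod.mk.injEq] at hg
    obtain ⟨hA, hB⟩ := hg
    have c1 : (1 : ℤ) ≤ c := by exact_mod_cast h1
    have c1' : (1 : ℤ) ≤ c' := by exact_mod_cast h1'
    have e1 : 2 * (e : ℤ) ≤ c := by exact_mod_cast h3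
    have e1' : 2 * (e' : ℤ) ≤ c' := by exact_mod_cast h3'
    have e0 : (0 : ℤ) ≤ e := Int.natCast_nonneg _
    have e0' : (0 : ℤ) ≤ e' := Int.natCast_nonneg _
    have hee : (e : ℤ) = e' := by
      have hprod : ((e : ℤ) - e') * ((e' : ℤ) ^ 2 + e' * e + e ^ 2 + ((c : ℤ) ^ 2 - 3 * e ^ 2)) = 0 := by
        have hc : (c' : ℤ) ^ 2 = (c : ℤ) ^ 2 - 3 * e ^ 2 + 3 * e' ^ 2 := by linarith
        rw [hc] at hB
        nlinarith
      rcases mul_eq_zero.1 hprod with h | h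
      · linarith
      · exfalso
        nlinarith
    have hcc : (c : ℤ) = c' := by
      rw [hee] at hA
      have : (c : ℤ) ^ 2 = (c' : ℤ) ^ 2 := by linarith
      nlinarith
    have h5 : e = e' := by exact_mod_cast hee
    have h6 : c = c' := by exact_mod_cast hcc
    subst h5; subst h6; rfl
  have hsub : ((T.image g : Finset (ℤ × ℤ)) : Set (ℤ × ℤ)) ⊆ Fam H := by
    intro p hp
    rw [Finset.mem_coe, Finset.mem_image] at hp
    obtain ⟨⟨c, e⟩, hs, rfl⟩ := hp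
    obtain ⟨h1, h2, h3⟩ := hmem _ hs
    simp only at h1 h2 h3
    have c1 : (1 : ℤ) ≤ c := by exact_mod_cast h1
    have c2 : (c : ℤ) ≤ H := by exact_mod_cast h2
    have e1 : 2 * (e : ℤ) ≤ c := by exact_mod_cast h3
    have e0 : (0 : ℤ) ≤ e := Int.natCast_nonneg _
    have hcH : (c : ℤ) ^ 2 ≤ (H : ℤ) ^ 2 := by nlinarith
    have hee : 4 * (e : ℤ) ^ 2 ≤ (c : ℤ) ^ 2 := by nlinarith
    refine ⟨?_, ?_, ?_, ?_⟩
    · simp only [g]
      rw [abs_le]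
      constructor <;> nlinarith [sq_nonneg (e : ℤ)]
    · simp only [g]
      have h7 : 2 * (e : ℤ) ^ 3 - (c : ℤ) ^ 2 * e = - ((e : ℤ) * ((c : ℤ) ^ 2 - 2 * e ^ 2)) := by ring
      rw [h7, abs_neg, abs_mul, abs_of_nonneg e0, abs_of_nonneg (by nlinarith)]
      have h8 : (e : ℤ) ≤ H := by linarith
      have h9 : (c : ℤ) ^ 2 - 2 * e ^ 2 ≤ (H : ℤ) ^ 2 := by nlinarith [sq_nonneg (e : ℤ)]
      calc (e : ℤ) * ((c : ℤ) ^ 2 - 2 * e ^ 2) ≤ H * (H : ℤ) ^ 2 :=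
            mul_le_mul h8 h9 (by nlinarith) (by omega)
        _ = (H : ℤ) ^ 3 := by ring
    · simp only [g]
      rw [disc_eq]
      have : (0 : ℤ) < (c : ℤ) ^ 4 * (4 * c ^ 2 - 9 * e ^ 2) := by
        apply mul_pos (by positivity)
        nlinarith
      exact this.ne'
    · exact ⟨e, c, by simp only [g]; ring, by simp only [g]; ring⟩
  have hcard : T.card ≤ (Fam H).ncard := by
    rw [← Finset.card_image_of_injOn hinj, ← Set.ncard_coe_finset]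
    exact Set.ncard_le_ncard hsub (fam_finite H)
  have hTc : H ^ 2 ≤ 4 * T.card := by
    rw [hT, Finset.card_sigma]
    simp only [Finset.card_range]
    clear hcard hsub hinj hmem
    clear_value T
    clear hT
    induction H with
    | zero => simp
    | succ n ih =>
      rw [Finset.sum_Icc_succ_top (by omega)]
      have : 2 * n + 1 ≤ 4 * ((n + 1) / 2 + 1) := by omega
      nlinarith
  have h10 : (H : ℝ) ^ 2 ≤ 4 * (T.card : ℝ) := by exact_mod_cast hTc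
  have h11 : (T.card : ℝ) ≤ ((Fam H).ncard : ℝ) := by exact_mod_cast hcard
  linarith

/-- the exceptional curves: some integral point violates the bound -/
def Exc (H : ℕ) : Set (ℤ × ℤ) :=
  {p | p ∈ Fam H ∧ ∃ x y : ℤ, y ^ 2 = x ^ 3 + p.1 * x + p.2 ∧
    1500 * (max ((|p.1| : ℤ) : ℝ) ((|p.2| : ℤ) : ℝ)) ^ (3 / 2 : ℝ) < max ((|x| : ℤ) : ℝ) ((|y| : ℤ) : ℝ)}

theorem exc_card : ∃ C : ℝ, 0 < C ∧ ∀ H : ℕ, 2 ≤ H →
    ((Exc H).ncard : ℝ) ≤ C * (H : ℝ) ^ 2 / (Real.log H) ^ (1 / 70 : ℝ) := by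
  classical
  obtain ⟨C, hC, hfin⟩ := final
  refine ⟨16 * C, by positivity, fun H hH => ?_⟩
  have hEf : (Exc H).Finite := (fam_finite H).subset (fun p hp => hp.1)
  have hex : ∀ p : ℤ × ℤ, p ∈ Exc H → ∃ z : ℤ × ℤ, p = (z.2 ^ 2 - 3 * z.1 ^ 2, 2 * z.1 ^ 3 - z.2 ^ 2 * z.1) := by
    rintro ⟨A, B⟩ ⟨⟨-, -, -, e, c, h1, h2⟩, -⟩
    refine ⟨(e, c), ?_⟩
    simp only at h1 h2
    have hA : A = c ^ 2 - 3 * e ^ 2 := by linarith
    have hB : B = 2 * e ^ 3 - c ^ 2 * e := by rw [hA] at h1; linarith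
    rw [hA, hB]
  choose! g hg using hex
  have hinj : Set.InjOn g (Exc H) := by
    intro p hp q hq hpq
    rw [hg p hp, hg q hq, hpq]
  have hcard : (Exc H).ncard = (hEf.toFinset.image g).card := by
    rw [Finset.card_image_of_injOn (by simpa using hinj), Set.ncard_eq_toFinset_card _ hEf]
  have hHr : (2 : ℝ) ≤ H := by exact_mod_cast hH
  have hl : 0 < Real.log H := Real.log_pos (by linarith)
  have hb := hfin (4 * H) (by omega) (hEf.toFinset.image g) (by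
    intro z hz
    rw [Finset.mem_image] at hz
    obtain ⟨p, hp, rfl⟩ := hz
    rw [Set.Finite.mem_toFinset] at hp
    have hpe := hg p hp
    obtain ⟨⟨h1, h2, h3, -⟩, x, y, h4, h5⟩ := hp
    rw [hpe] at h1 h2 h3 h4 h5
    simp only at h1 h2 h3 h4 h5
    rw [disc_eq] at h3
    obtain ⟨k1, k2⟩ := par_le (g p).1 (g p).2 H (by omega) h1 h2
    refine ⟨by push_cast; exact k1, by push_cast; exact k2, ?_, ?_, x, y, h4, h5⟩
    · intro h0
      apply h3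
      rw [h0]; ring
    · intro h0
      apply h3
      rw [h0]; ring)
  rw [hcard]
  refine hb.trans ?_
  push_cast
  have h6 : Real.log H ≤ Real.log (4 * H) := Real.log_le_log (by linarith) (by linarith)
  have h7 : (Real.log H) ^ (1 / 70 : ℝ) ≤ (Real.log (4 * H)) ^ (1 / 70 : ℝ) :=
    Real.rpow_le_rpow hl.le h6 (by norm_num)
  have h8 : 0 < (Real.log H) ^ (1 / 70 : ℝ) := Real.rpow_pos_of_pos hl _
  calc C * (4 * (H : ℝ)) ^ 2 / (Real.log (4 * H)) ^ (1 / 70 : ℝ)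
      ≤ C * (4 * (H : ℝ)) ^ 2 / (Real.log H) ^ (1 / 70 : ℝ) :=
        div_le_div_of_nonneg_left (by positivity) h8 h7
    _ = 16 * C * (H : ℝ) ^ 2 / (Real.log H) ^ (1 / 70 : ℝ) := by ring

end TwC
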